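import Pool.Agent.H900R3.Dir.Curve

open Set Filter Topology MeasureTheory Complex
open scoped ContDiff

namespace Pool.Agent.H900R3.Dir

variable {m : ℕ} [hm : Fact m.Prime]

/-- the complex number given by a sign -/
noncomputable def sg (e : ℤˣ) : ℂ := ((e : ℤ) : ℂ)

theorem sg_mul (a b : ℤˣ) : sg (a * b) = sg a * sg b := by simp [sg]

theorem sg_sq (a : ℤˣ) : sg a ^ 2 = 1 := by
  rcases Int.units_eq_one_or a with h | h <;> simp [sg, h]

theorem sg_one : sg 1 = 1 := by simp [sg]

theorem sg_inj {a b : ℤˣ} (h : sg a = sg b) : a = b := by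
  apply Units.ext
  have h' : ((a : ℤ) : ℂ) = ((b : ℤ) : ℂ) := h
  exact_mod_cast h'

theorem sg_prod {ι : Type*} (s : Finset ι) (f : ι → ℤˣ) : sg (∏ i ∈ s, f i) = ∏ i ∈ s, sg (f i) := by
  classical
  induction s using Finset.induction_on with
  | empty => simp [sg_one]
  | insert a s ha ih => rw [Finset.prod_insert ha, Finset.prod_insert ha, sg_mul, ih]

variable (m) in
/-- the sign group -/
noncomputable def A : Subgroup (ZMod m → ℤˣ) :=
  MonoidHom.ker ({ toFun := fun e => ∏ j, e j
                   map_one' := by simp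
                   map_mul' := fun a b => by simp [Finset.prod_mul_distrib] } :
                      (ZMod m → ℤˣ) →* ℤˣ)

theorem mem_A {e : ZMod m → ℤˣ} : e ∈ A m ↔ ∏ j, e j = 1 := by
  rw [A, MonoidHom.mem_ker]; rfl

noncomputable instance : Fintype (A m) := Fintype.ofFinite _

/-- the action of the sign group -/
noncomputable def act (e : A m) (x : Curve m) : Curve m :=
  Curve.mk' (pr x) (fun j => sg (e.1 j) * tt x j) (pr_good x)
    (fun j => by rw [mul_pow, sg_sq, one_mul, tt_eq])
    (by rw [Finset.prod_mul_distrib, tt_prod, ← sg_prod, mem_A.1 e.2, sg_one, one_mul])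

@[simp] theorem pr_act (e : A m) (x : Curve m) : pr (act e x) = pr x := rfl
@[simp] theorem tt_act (e : A m) (x : Curve m) (j : ZMod m) : tt (act e x) j = sg (e.1 j) * tt x j := rfl

theorem act_mul (a b : A m) (x : Curve m) : act (a * b) x = act a (act b x) :=
  Curve.ext' rfl fun j => by
    rw [tt_act, tt_act, tt_act, ← mul_assoc, ← sg_mul]; rfl

theorem act_one (x : Curve m) : act 1 x = x :=
  Curve.ext' rfl fun j => by
    rw [tt_act]
    have : (1 : A m).1 j = 1 := rfl
    rw [this, sg_one, one_mul]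

theorem isInducing_val : Topology.IsInducing (fun y : Curve m => y.1) :=
  Topology.IsInducing.subtypeVal

theorem continuous_of {α : Type*} [TopologicalSpace α] {f : α → Curve m}
    (h1 : Continuous fun a => pr (f a)) (h2 : ∀ j, Continuous fun a => tt (f a) j) :
    Continuous f :=
  (isInducing_val).continuous_iff.2 (h1.prodMk (continuous_pi h2))

theorem continuousAt_of {α : Type*} [TopologicalSpace α] {f : α → Curve m} {a : α}
    (h1 : ContinuousAt (fun a => pr (f a)) a) (h2 : ∀ j, ContinuousAt (fun a => tt (f a) j) a) :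
    ContinuousAt f a :=
  (isInducing_val).continuousAt_iff.2 (h1.prodMk (continuousAt_pi.2 h2))

theorem continuous_act (e : A m) : Continuous (act e) :=
  continuous_of continuous_pr fun j => continuous_const.mul (continuous_tt j)

theorem act_injective (x : Curve m) : Function.Injective (fun e : A m => act e x) := by
  intro a b h
  apply Subtype.ext
  funext j
  have h1 : tt (act a x) j = tt (act b x) j := by simp only at h; rw [h]
  rw [tt_act, tt_act] at h1
  exact sg_inj (mul_right_cancel₀ (tt_ne x j) h1)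

/-- the action is transitive on the fibres -/
theorem exists_act {x y : Curve m} (h : pr x = pr y) : ∃ e : A m, act e x = y := by
  have h1 : ∀ j, ∃ a : ℤˣ, sg a * tt x j = tt y j := by
    intro j
    have h2 : tt y j ^ 2 = tt x j ^ 2 := by rw [tt_sq, tt_sq, h]
    rcases sq_eq_sq_iff_eq_or_eq_neg.1 h2 with h3 | h3
    · exact ⟨1, by rw [sg_one, one_mul, h3]⟩
    · exact ⟨-1, by rw [h3]; simp [sg]⟩
  choose a ha using h1
  have h3 : sg (∏ j, a j) = 1 := by
    rw [sg_prod]
    have h4 : ∏ j, (sg (a j) * tt x j) = 1 := by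
      simp only [ha]; exact tt_prod y
    rwa [Finset.prod_mul_distrib, tt_prod, mul_one] at h4
  refine ⟨⟨a, mem_A.2 (sg_inj (h3.trans sg_one.symm))⟩, Curve.ext' h fun j => ha j⟩

theorem fiber_eq (x : Curve m) : pr ⁻¹' {pr x} = range (fun e : A m => act e x) := by
  ext y
  constructor
  · intro h
    exact exists_act (Eq.symm h)
  · rintro ⟨e, rfl⟩
    rfl

theorem finsum_fiber (x : Curve m) (f : Curve m → ℝ) :
    ∑ᶠ y ∈ pr ⁻¹' {pr x}, f y = ∑ e : A m, f (act e x) := by
  rw [fiber_eq, finsum_mem_range (act_injective x), finsum_eq_sum_of_fintype]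

/-- rotation -/
noncomputable def rot (x : Curve m) : Curve m :=
  Curve.mk' (v m 1 * pr x) (fun j => tt x (j - 1))
    (fun j h => by
      have : pr x = v m (j - 1) := by
        have h2 : v m 1 * pr x = v m 1 * v m (j - 1) := by rw [h, ← v_add]; congr 1; ring
        exact mul_left_cancel₀ (v_ne m 1) h2
      exact pr_good x _ this)
    (fun j => by
      have h1 := tt_eq x (j - 1)
      have h2 : v m (j + 1) = v m 1 * v m (j - 1 + 1) := by rw [← v_add]; congr 1; ring
      have h3 : v m j = v m 1 * v m (j - 1) := by rw [← v_add]; congr 1; ring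
      show tt x (j - 1) ^ 2 * (v m 1 * pr x - v m (j + 1)) = v m 1 * pr x - v m j
      rw [h2, h3]
      linear_combination (v m 1) * h1)
    (by
      have : ∏ j : ZMod m, tt x (j - 1) = ∏ j, tt x j :=
        Fintype.prod_equiv (Equiv.subRight 1) _ _ (fun j => rfl)
      rw [this, tt_prod])

@[simp] theorem pr_rot (x : Curve m) : pr (rot x) = v m 1 * pr x := rfl
@[simp] theorem tt_rot (x : Curve m) (j : ZMod m) : tt (rot x) j = tt x (j - 1) := rfl

theorem continuous_rot : Continuous (rot (m := m)) :=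
  continuous_of (continuous_const.mul continuous_pr) fun j => continuous_tt (j - 1)

/-- shifted sign vector -/
noncomputable def sh (e : A m) : A m := ⟨fun j => e.1 (j - 1), mem_A.2 (by
  have : ∏ j : ZMod m, e.1 (j - 1) = ∏ j, e.1 j :=
    Fintype.prod_equiv (Equiv.subRight 1) _ _ (fun j => rfl)
  rw [this, mem_A.1 e.2])⟩

theorem rot_act (e : A m) (x : Curve m) : rot (act e x) = act (sh e) (rot x) :=
  Curve.ext' rfl fun j => rfl

theorem rot_bij_fiber (z : ℂ) : BijOn (rot (m := m)) (pr ⁻¹' {z}) (pr ⁻¹' {v m 1 * z}) := by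
  refine ⟨?_, ?_, ?_⟩
  · intro x hx
    simp only [mem_preimage, mem_singleton_iff] at hx ⊢
    rw [pr_rot, hx]
  · intro x hx y hy h
    refine Curve.ext' (Eq.trans hx (Eq.symm hy)) fun j => ?_
    have : tt (rot x) (j + 1) = tt (rot y) (j + 1) := by rw [h]
    simpa using this
  · intro y hy
    have hz : pr y = v m 1 * z := hy
    have hinv : v m (-1) * v m 1 = 1 := v_neg m 1
    have hv1 := v_ne m 1
    have g1 : good m z := by
      intro j h
      apply pr_good y (j + 1)
      rw [hz, h, ← v_add]; congr 1; ring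
    have g2 : ∀ j, tt y (j + 1) ^ 2 * (z - v m (j + 1)) = z - v m j := by
      intro j
      have h1 := tt_eq y (j + 1)
      have h2 : v m (j + 1 + 1) = v m 1 * v m (j + 1) := by rw [← v_add]; congr 1; ring
      have h3 : v m (j + 1) = v m 1 * v m j := by rw [← v_add]; congr 1; ring
      rw [hz, h2] at h1
      nth_rewrite 2 [h3] at h1
      have h4 : v m 1 * (tt y (j + 1) ^ 2 * (z - v m (j + 1)) - (z - v m j)) = 0 := by
        linear_combination h1
      rcases mul_eq_zero.1 h4 with h | h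
      · exact absurd h hv1
      · exact sub_eq_zero.1 h
    have g3 : ∏ j : ZMod m, tt y (j + 1) = 1 := by
      have : ∏ j : ZMod m, tt y (j + 1) = ∏ j, tt y j :=
        Fintype.prod_equiv (Equiv.addRight 1) _ _ (fun j => rfl)
      rw [this, tt_prod]
    refine ⟨Curve.mk' z (fun j => tt y (j + 1)) g1 g2 g3, rfl, ?_⟩
    refine Curve.ext' ?_ fun j => ?_
    · exact hz.symm
    · show tt y (j - 1 + 1) = tt y j
      rw [sub_add_cancel]

/-! ### The domain -/

variable (m) in
/-- the compact domain -/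
noncomputable def KK (r : ℝ) : Set (Curve m) := {x | ‖pr x‖ ≤ 2 ∧ ∀ j, r ≤ ‖pr x - v m j‖}

theorem act_mem_KK {r : ℝ} (e : A m) (x : Curve m) : act e x ∈ KK m r ↔ x ∈ KK m r := Iff.rfl

theorem rot_mem_KK {r : ℝ} (x : Curve m) : rot x ∈ KK m r ↔ x ∈ KK m r := by
  unfold KK
  simp only [mem_ofPred_eq, pr_rot, norm_mul, v_norm, one_mul]
  refine and_congr_right fun _ => ?_
  have key : ∀ j, ‖v m 1 * pr x - v m (j + 1)‖ = ‖pr x - v m j‖ := by
    intro j
    have h3 : v m (j + 1) = v m 1 * v m j := by rw [← v_add]; congr 1; ring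
    rw [h3, ← mul_sub, norm_mul, v_norm, one_mul]
  constructor
  · intro h j; rw [← key]; exact h (j + 1)
  · intro h j
    have := h (j - 1)
    rw [← key, sub_add_cancel] at this
    exact this

theorem isCompact_KK {r : ℝ} (hr : 0 < r) : IsCompact (KK m r) := by
  rw [(isInducing_val (m := m)).isCompact_iff]
  set C : Set (ℂ × (ZMod m → ℂ)) := {p | ‖p.1‖ ≤ 2 ∧ (∀ j, r ≤ ‖p.1 - v m j‖) ∧
    (∀ j, p.2 j ^ 2 * (p.1 - v m (j + 1)) = p.1 - v m j) ∧ ∏ j, p.2 j = 1} with hC
  have himg : (fun y : Curve m => y.1) '' KK m r = C := by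
    ext p
    constructor
    · rintro ⟨x, hx, rfl⟩
      exact ⟨hx.1, hx.2, x.2.2.1, x.2.2.2⟩
    · rintro ⟨h1, h2, h3, h4⟩
      refine ⟨Curve.mk' p.1 p.2 (fun j h => ?_) h3 h4, ⟨h1, h2⟩, rfl⟩
      have := h2 j
      rw [h, sub_self, norm_zero] at this
      linarith
  rw [himg]
  apply Metric.isCompact_of_isClosed_isBounded
  · have e1 : C = {p | ‖p.1‖ ≤ 2} ∩ ((⋂ j, {p | r ≤ ‖p.1 - v m j‖}) ∩
      ((⋂ j, {p | p.2 j ^ 2 * (p.1 - v m (j + 1)) = p.1 - v m j}) ∩ {p | ∏ j, p.2 j = 1})) := by
      ext p; simp [hC]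
    rw [e1]
    refine (isClosed_le (by fun_prop) (by fun_prop)).inter
      ((isClosed_iInter fun j => isClosed_le (by fun_prop) (by fun_prop)).inter
      ((isClosed_iInter fun j => isClosed_eq (by fun_prop) (by fun_prop)).inter
      (isClosed_eq (by fun_prop) (by fun_prop))))
  · refine (Metric.isBounded_iff_subset_closedBall (0 : ℂ × (ZMod m → ℂ))).2
      ⟨2 + (3 / r + 1), ?_⟩
    rintro p ⟨h1, h2, h3, h4⟩
    rw [mem_closedBall_zero_iff, Prod.norm_def]
    have hr3 : 0 < 3 / r := by positivity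
    refine max_le (by linarith) ?_
    rw [pi_norm_le_iff_of_nonneg (by positivity)]
    intro j
    have h5 : ‖p.2 j‖ ^ 2 * r ≤ 3 := by
      calc ‖p.2 j‖ ^ 2 * r ≤ ‖p.2 j‖ ^ 2 * ‖p.1 - v m (j + 1)‖ :=
            mul_le_mul_of_nonneg_left (h2 _) (by positivity)
        _ = ‖p.1 - v m j‖ := by rw [← norm_pow, ← norm_mul, h3]
        _ ≤ ‖p.1‖ + ‖v m j‖ := norm_sub_le _ _
        _ ≤ 3 := by rw [v_norm]; linarith
    have h6 : ‖p.2 j‖ ^ 2 ≤ 3 / r := by rwa [le_div_iff₀ hr]
    nlinarith [norm_nonneg (p.2 j)]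

end Pool.Agent.H900R3.Dir
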