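import Pool.Agent.H900R3.Dir.Retr

open Set Filter Topology Complex
open scoped ContDiff

namespace Pool.Agent.H900R3.Dir

variable {m : ℕ} [hm : Fact m.Prime] {r : ℝ}

variable (m) in
/-- choice of the radius -/
theorem exists_rad : ∃ r : ℝ, 0 < r ∧ r ≤ 1 / 4 ∧ Sep m r := by
  have h1 : ∀ᶠ r in 𝓝[>] (0 : ℝ), ∀ i j : ZMod m, i ≠ j → 2 * r < ‖v m i - v m j‖ := by
    rw [eventually_all]; intro i
    rw [eventually_all]; intro j
    by_cases hij : i = j
    · exact Eventually.of_forall fun r h => absurd hij h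
    · have h2 : ContinuousAt (fun r : ℝ => 2 * r) 0 := by fun_prop
      have h3 : 0 < ‖v m i - v m j‖ := norm_pos_iff.2 (sub_ne_zero.2 fun h => hij (v_inj m h))
      have h4 : ∀ᶠ r in 𝓝 (0 : ℝ), 2 * r < ‖v m i - v m j‖ :=
        h2.eventually_lt_const (by simpa using h3)
      exact (h4.filter_mono nhdsWithin_le_nhds).mono fun r hr _ => hr
  have h5 : ∀ᶠ r in 𝓝[>] (0 : ℝ), r < 1 / 4 :=
    (eventually_lt_nhds (by norm_num : (0 : ℝ) < 1 / 4)).filter_mono nhdsWithin_le_nhds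
  obtain ⟨r, hr1, hr2, hr3⟩ := (h1.and (h5.and self_mem_nhdsWithin)).exists
  exact ⟨r, hr3, hr2.le, hr1⟩

/-- squared distance minus a constant -/
noncomputable def nn (c : ℂ) (s : ℝ) (z : ℂ) : ℝ := ‖z - c‖ ^ 2 - s

theorem contDiff_nn (c : ℂ) (s : ℝ) : ContDiff ℝ ∞ (nn c s) :=
  ((contDiff_id.sub contDiff_const).norm_sq ℝ).sub contDiff_const

theorem nn_fderiv (c : ℂ) (s : ℝ) (z : ℂ) : fderiv ℝ (nn c s) z (z - c) = 2 * ‖z - c‖ ^ 2 := by
  have h1 : HasFDerivAt (fun z : ℂ => z - c) (ContinuousLinearMap.id ℝ ℂ) z :=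
    (hasFDerivAt_id z).sub_const c
  have h2 := h1.norm_sq.sub_const s
  have h3 : HasFDerivAt (nn c s) _ z := h2
  rw [h3.fderiv]
  simp
  rw [Complex.sq_norm, normSq_apply, sub_re, sub_im]
  ring

theorem fderiv_ne {a b : ℂ → ℝ} {z w : ℂ} (ha : DifferentiableAt ℝ a z)
    (hb : DifferentiableAt ℝ b z) (h0 : a z = 0) (h1 : b z ≠ 0) (h2 : fderiv ℝ a z w ≠ 0) :
    fderiv ℝ (fun z => a z * b z) z ≠ 0 := by
  intro h
  have h3 : fderiv ℝ (fun z => a z * b z) z = a z • fderiv ℝ b z + b z • fderiv ℝ a z :=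
    fderiv_fun_mul ha hb
  rw [h3, h0, zero_smul, zero_add] at h
  have h4 := congrArg (fun L : ℂ →L[ℝ] ℝ => L w) h
  simp only [_root_.smul_apply, smul_eq_mul, _root_.zero_apply, mul_eq_zero] at h4
  rcases h4 with h4 | h4
  · exact h1 h4
  · exact h2 h4

variable (m r) in
/-- defining function -/
noncomputable def FF (z : ℂ) : ℝ := nn 0 4 z * ∏ j : ZMod m, nn (v m j) (r ^ 2) z

theorem contDiff_FF : ContDiff ℝ ∞ (FF m r) := by
  unfold FF
  exact (contDiff_nn 0 4).mul (contDiff_prod fun j _ => contDiff_nn _ _)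

theorem nn_pos (hr : 0 < r) {z c : ℂ} (h : r < ‖z - c‖) : 0 < nn c (r ^ 2) z := by
  unfold nn; nlinarith
theorem nn_nonneg (hr : 0 < r) {z c : ℂ} (h : r ≤ ‖z - c‖) : 0 ≤ nn c (r ^ 2) z := by
  unfold nn; nlinarith
theorem nn_neg (hr : 0 < r) {z c : ℂ} (h : ‖z - c‖ < r) : nn c (r ^ 2) z < 0 := by
  unfold nn; nlinarith [norm_nonneg (z - c)]

theorem far (hS : Sep m r) {z : ℂ} {i j : ZMod m} (hij : i ≠ j) (h : ‖z - v m j‖ ≤ r) :
    r < ‖z - v m i‖ := by
  have h2 := hS i j hij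
  have h3 : ‖v m i - v m j‖ ≤ ‖z - v m i‖ + ‖z - v m j‖ := by
    have : v m i - v m j = -(z - v m i) + (z - v m j) := by ring
    rw [this]
    exact (norm_add_le _ _).trans (by rw [norm_neg])
  linarith

theorem far_out (hr4 : r ≤ 1 / 4) {z : ℂ} (h : 2 ≤ ‖z‖) (j : ZMod m) : r < ‖z - v m j‖ := by
  have h4 : ‖z‖ ≤ ‖z - v m j‖ + ‖v m j‖ := by
    have := norm_add_le (z - v m j) (v m j)
    rwa [sub_add_cancel] at this
  rw [v_norm] at h4
  linarith

theorem near_in (hr4 : r ≤ 1 / 4) {z : ℂ} {j : ZMod m} (h : ‖z - v m j‖ ≤ r) : ‖z‖ < 2 := by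
  by_contra hcon
  push Not at hcon
  have := far_out hr4 hcon j
  linarith

theorem FF_split (z : ℂ) (j : ZMod m) : FF m r z = nn (v m j) (r ^ 2) z *
    (nn 0 4 z * ∏ i ∈ Finset.univ.erase j, nn (v m i) (r ^ 2) z) := by
  unfold FF
  rw [← Finset.mul_prod_erase Finset.univ _ (Finset.mem_univ j)]
  ring

theorem KK_eq (hr : 0 < r) (hr4 : r ≤ 1 / 4) (hS : Sep m r) :
    KK m r = {x | FF m r (pr x) ≤ 0} := by
  ext x
  set z := pr x with hz
  show (‖z‖ ≤ 2 ∧ ∀ j, r ≤ ‖z - v m j‖) ↔ FF m r z ≤ 0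
  constructor
  · rintro ⟨h1, h2⟩
    refine mul_nonpos_of_nonpos_of_nonneg ?_ (Finset.prod_nonneg fun j _ => nn_nonneg hr (h2 j))
    unfold nn
    rw [sub_zero]; nlinarith [norm_nonneg z]
  · intro h
    by_contra hcon
    have hpos : 0 < FF m r z := by
      by_cases h2 : ‖z‖ ≤ 2
      · have h3 : ∃ j, ‖z - v m j‖ < r := by
          by_contra h4
          push Not at h4
          exact hcon ⟨h2, h4⟩
        obtain ⟨j, hj⟩ := h3
        rw [FF_split z j]
        have h5 : ‖z‖ < 2 := near_in hr4 hj.le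
        have h6 : nn 0 4 z < 0 := by
          unfold nn; rw [sub_zero]; nlinarith [norm_nonneg z]
        have h7 : 0 < ∏ i ∈ Finset.univ.erase j, nn (v m i) (r ^ 2) z :=
          Finset.prod_pos fun i hi => nn_pos hr (far hS (Finset.ne_of_mem_erase hi) hj.le)
        exact mul_pos_of_neg_of_neg (nn_neg hr hj) (mul_neg_of_neg_of_pos h6 h7)
      · push Not at h2
        refine mul_pos ?_ (Finset.prod_pos fun j _ => nn_pos hr (far_out hr4 h2.le j))
        unfold nn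
        rw [sub_zero]; nlinarith
    linarith

theorem FF_grad (hr : 0 < r) (hr4 : r ≤ 1 / 4) (hS : Sep m r) {z : ℂ} (h : FF m r z = 0) :
    fderiv ℝ (FF m r) z ≠ 0 := by
  have hd : ∀ (c : ℂ) (s : ℝ), DifferentiableAt ℝ (nn c s) z := fun c s =>
    (contDiff_nn c s).contDiffAt.differentiableAt (by simp)
  have hdp : ∀ S : Finset (ZMod m),
      DifferentiableAt ℝ (fun z => ∏ i ∈ S, nn (v m i) (r ^ 2) z) z := fun S =>
    ((contDiff_prod fun j _ => contDiff_nn _ _ :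
      ContDiff ℝ ∞ (fun z => ∏ i ∈ S, nn (v m i) (r ^ 2) z))).contDiffAt.differentiableAt (by simp)
  by_cases h0 : ∃ j, ‖z - v m j‖ = r
  · obtain ⟨j, hj⟩ := h0
    have e1 : FF m r = fun z => nn (v m j) (r ^ 2) z *
        (nn 0 4 z * ∏ i ∈ Finset.univ.erase j, nn (v m i) (r ^ 2) z) := funext fun z => FF_split z j
    rw [e1]
    refine fderiv_ne (w := z - v m j) (hd _ _) ((hd _ _).mul (hdp _)) ?_ ?_ ?_
    · unfold nn; rw [hj]; ring
    · refine mul_ne_zero ?_ (Finset.prod_ne_zero_iff.2 fun i hi =>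
        (nn_pos hr (far hS (Finset.ne_of_mem_erase hi) hj.le)).ne')
      have h5 : ‖z‖ < 2 := near_in hr4 hj.le
      have h6 : nn 0 4 z < 0 := by
        unfold nn; rw [sub_zero]; nlinarith [norm_nonneg z]
      exact h6.ne
    · rw [nn_fderiv, hj]; positivity
  · push Not at h0
    have h1 : ∀ j, nn (v m j) (r ^ 2) z ≠ 0 := by
      intro j
      rcases lt_or_gt_of_ne (h0 j) with h | h
      · exact (nn_neg hr h).ne
      · exact (nn_pos hr h).ne'
    have h2 : (∏ j : ZMod m, nn (v m j) (r ^ 2) z) ≠ 0 := Finset.prod_ne_zero_iff.2 fun j _ => h1 j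
    have h3 : nn 0 4 z = 0 := by
      rcases mul_eq_zero.1 h with h | h
      · exact h
      · exact absurd h h2
    have e1 : FF m r = fun z => nn 0 4 z * ∏ j : ZMod m, nn (v m j) (r ^ 2) z := rfl
    rw [e1]
    refine fderiv_ne (w := z - 0) (hd _ _) (hdp _) h3 h2 ?_
    rw [nn_fderiv]
    have h4 : ‖z - 0‖ ^ 2 = 4 := by
      unfold nn at h3; linarith
    rw [h4]; norm_num

/-- functions pulled back from the plane -/
theorem smooth_pull {n : WithTop ℕ∞} {F : ℂ → ℝ} (hF : ContDiff ℝ n F) :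
    SmoothC (hp (m := m)) n (fun x => F (pr x)) := by
  intro x
  have h1 : loc hp (fun x : Curve m => F (pr x)) x =ᶠ[𝓝 (pr x)] F := by
    filter_upwards [π_localInverse hp x] with z hz
    rw [loc, hz]
  exact hF.contDiffAt.congr_of_eventuallyEq h1

theorem dAt_pull (F : ℂ → ℝ) (x : Curve m) : dAt hp (fun x => F (pr x)) x = fderiv ℝ F (pr x) := by
  have h1 : loc hp (fun x : Curve m => F (pr x)) x =ᶠ[𝓝 (pr x)] F := by
    filter_upwards [π_localInverse hp x] with z hz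
    rw [loc, hz]
  rw [dAt, h1.fderiv_eq]

theorem bdry_point (h2 : m ≠ 2) : ∃ x : Curve m, FF m r (pr x) = 0 := by
  have hg : good m 2 := by
    intro j h
    have := v_norm m j
    rw [← h] at this
    norm_num at this
  refine ⟨s0 h2 2, ?_⟩
  rw [pr_s0 h2 hg, FF]
  have : nn 0 4 2 = 0 := by
    unfold nn
    norm_num
  rw [this, zero_mul]

end Pool.Agent.H900R3.Dir
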