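import Pool.Agent.H900R3.Dir.Test

open Set Filter Topology Complex Relation

namespace Pool.Agent.H900R3.Dir

variable {m : ℕ} [hm : Fact m.Prime] {r : ℝ}

variable (m) in
/-- the cut plane -/
def Om : Set ℂ := {z | ∀ j : ZMod m, 1 - z * v m (-j) ∈ slitPlane}

theorem isOpen_Om : IsOpen (Om m) := by
  have : Om m = ⋂ j : ZMod m, (fun z => 1 - z * v m (-j)) ⁻¹' slitPlane := by
    ext z; simp [Om]
  rw [this]
  exact isOpen_iInter_of_finite fun j => isOpen_slitPlane.preimage (by fun_prop)

theorem zero_mem_Om : (0 : ℂ) ∈ Om m := fun j => by simp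

theorem starConvex_Om : StarConvex ℝ (0 : ℂ) (Om m) := by
  intro z hz a b ha hb hab j
  have h1 := starConvex_one_slitPlane (hz j) ha hb hab
  have h2 : a • (1 : ℂ) + b • (1 - z * v m (-j)) = 1 - (a • (0 : ℂ) + b • z) * v m (-j) := by
    have : (a : ℂ) + b = 1 := by exact_mod_cast hab
    simp only [real_smul]
    linear_combination this
  rwa [h2] at h1

theorem good_Om {z : ℂ} (hz : z ∈ Om m) : good m z := by
  intro j h
  have h1 := hz j
  rw [h, mul_comm, v_neg, sub_self] at h1
  exact slitPlane_ne_zero h1 rfl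

theorem tt_s0 (h2 : m ≠ 2) {z : ℂ} (h : good m z) (j : ZMod m) :
    tt (s0 h2 z) j = kap m * aa z j / aa z (j + 1) := by
  show kap m * aa (ww m z) j / aa (ww m z) (j + 1) = _
  rw [ww_eq h]

theorem tendsto_curve {α : Type*} {l : Filter α} {f : α → Curve m} {w : Curve m}
    (h1 : Tendsto (fun a => pr (f a)) l (𝓝 (pr w)))
    (h2 : ∀ j, Tendsto (fun a => tt (f a) j) l (𝓝 (tt w j))) : Tendsto f l (𝓝 w) := by
  rw [(isInducing_val (m := m)).tendsto_nhds_iff]
  exact h1.prodMk_nhds (tendsto_pi_nhds.2 h2)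

/-- general limit lemma -/
theorem tendsto_s0 (h2 : m ≠ 2) {α : Type*} {l : Filter α} {z : α → ℂ} {z₀ : ℂ}
    (hz : Tendsto z l (𝓝 z₀)) (hz₀ : good m z₀) (η : ZMod m → ℤˣ) (e : A m)
    (he : ∀ j, e.1 j = η j * η (j + 1))
    (ha : ∀ j, Tendsto (fun a => aa (z a) j) l (𝓝 (sg (η j) * aa z₀ j))) :
    Tendsto (fun a => act e (s0 h2 (z a))) l (𝓝 (s0 h2 z₀)) := by
  have hg : ∀ᶠ a in l, good m (z a) := hz.eventually ((isOpen_good m).mem_nhds hz₀)
  apply tendsto_curve
  · rw [pr_s0 h2 hz₀]
    refine hz.congr' ?_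
    filter_upwards [hg] with a h
    rw [pr_act, pr_s0 h2 h]
  · intro j
    have hη : ∀ j, sg (η j) ≠ 0 := fun j h => by
      have := sg_sq (η j); rw [h] at this; simp at this
    have h3 : Tendsto (fun a => sg (e.1 j) * (kap m * aa (z a) j / aa (z a) (j + 1))) l
        (𝓝 (sg (e.1 j) * (kap m * (sg (η j) * aa z₀ j) / (sg (η (j + 1)) * aa z₀ (j + 1))))) :=
      tendsto_const_nhds.mul ((tendsto_const_nhds.mul (ha j)).div (ha (j + 1))
        (mul_ne_zero (hη _) (sq_ne _)))
    have h4 : sg (e.1 j) * (kap m * (sg (η j) * aa z₀ j) / (sg (η (j + 1)) * aa z₀ (j + 1))) =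
        tt (s0 h2 z₀) j := by
      rw [tt_s0 h2 hz₀, he, sg_mul]
      have h5 := sg_sq (η j)
      have h6 := hη (j + 1)
      have h7 : aa z₀ (j + 1) ≠ 0 := sq_ne _
      field_simp
      linear_combination (kap m * aa z₀ j) * h5
    rw [h4] at h3
    refine h3.congr' ?_
    filter_upwards [hg] with a h
    rw [tt_act, tt_s0 h2 h]

theorem continuousOn_s0 (h2 : m ≠ 2) : ContinuousOn (s0 (m := m) h2) (Om m) := by
  intro z hz
  refine ContinuousAt.continuousWithinAt ?_
  have := tendsto_s0 h2 (l := 𝓝 z) (z := fun z => z) tendsto_id (good_Om hz) (fun _ => 1) 1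
    (fun j => by simp) (fun j => by
      rw [sg_one, one_mul]
      exact continuousAt_aa (hz j))
  simp only [act_one] at this
  exact this

/-- the sheet -/
noncomputable def YY (h2 : m ≠ 2) (e : A m) : Set (Curve m) := act e '' (s0 h2 '' Om m)

theorem YY_preconn (h2 : m ≠ 2) (e : A m) : IsPreconnected (closure (YY h2 e)) := by
  refine IsPreconnected.closure ?_
  refine IsPreconnected.image ?_ _ (continuous_act e).continuousOn
  refine IsPreconnected.image ?_ _ (continuousOn_s0 h2)
  exact (starConvex_Om.isPathConnected zero_mem_Om).isConnected.isPreconnected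

theorem dense_Om : Dense (Om m) := by
  have h1 : Dense (⋂ j : ZMod m, {z : ℂ | (1 - z * v m (-j)).im ≠ 0}) := by
    refine dense_iInter_of_isOpen (fun j => ?_) fun j => ?_
    · exact isOpen_ne_fun (by fun_prop) continuous_const
    · have h2 : IsOpenMap fun z : ℂ => (1 - z * v m (-j)).im := by
        have a1 := (Homeomorph.mulRight₀ (v m (-j)) (v_ne m _)).isOpenMap
        have a2 := (Homeomorph.subLeft (1 : ℂ)).isOpenMap
        exact isOpenMap_im.comp (a2.comp a1)
      have h3 : Dense ({0}ᶜ : Set ℝ) := dense_compl_singleton 0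
      exact h3.preimage h2
  refine h1.mono ?_
  intro z hz j
  rw [mem_iInter] at hz
  exact Or.inr (hz j)

theorem iUnion_YY (h2 : m ≠ 2) : ⋃ e : A m, closure (YY h2 e) = univ := by
  rw [← closure_iUnion_of_finite]
  rw [← dense_iff_closure_eq]
  have h1 : Dense (pr (m := m) ⁻¹' Om m) := dense_Om.preimage isLocalHomeomorph_pr.isOpenMap
  refine h1.mono ?_
  intro x hx
  obtain ⟨e, he⟩ := exists_act (x := s0 h2 (pr x)) (y := x) (pr_s0 h2 (pr_good x))
  rw [mem_iUnion]
  exact ⟨e, _, ⟨pr x, hx, rfl⟩, he⟩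

open Classical in
/-- signs given by a set -/
noncomputable def et (T : Finset (ZMod m)) (j : ZMod m) : ℤˣ := if j ∈ T then -1 else 1

theorem prod_shift (η : ZMod m → ℤˣ) : ∏ j, (η j * η (j + 1)) = 1 := by
  rw [Finset.prod_mul_distrib]
  have h1 : ∏ j : ZMod m, η (j + 1) = ∏ j : ZMod m, η j :=
    Fintype.prod_equiv (Equiv.addRight 1) _ _ (fun j => rfl)
  rw [h1]
  exact Int.units_mul_self _

/-- elements of the sign group given by a set of cuts -/
noncomputable def eT (T : Finset (ZMod m)) : A m := ⟨fun j => et T j * et T (j + 1), mem_A.2 (prod_shift _)⟩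

/-- intersection relation -/
def RR (h2 : m ≠ 2) (a b : A m) : Prop := (closure (YY h2 a) ∩ closure (YY h2 b)).Nonempty

theorem re_v_ne (h2 : m ≠ 2) {j : ZMod m} (hj : j ≠ 0) : (1 : ℂ) - 2 * v m j ∈ slitPlane := by
  by_contra hcon
  rw [mem_slitPlane_iff] at hcon
  push Not at hcon
  obtain ⟨h1, h3⟩ := hcon
  have him : (v m j).im = 0 := by
    simpa using h3
  have hre : 1 / 2 ≤ (v m j).re := by
    simp at h1; linarith
  have hn := v_norm m j
  have h4 := Complex.sq_norm (v m j)
  rw [hn, normSq_apply, him] at h4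
  have h5 : (v m j).re = 1 := by nlinarith
  have h6 : v m j = v m 0 := by
    rw [v_zero]; apply Complex.ext
    · simp [h5]
    · simp [him]
  exact hj (v_inj m h6)

/-- the two sides of a cut -/
theorem side (h2 : m ≠ 2) (j : ZMod m) (s : ℝ) :
    let z := fun ε : ℝ => v m j * (2 + (s * ε : ℝ) * I)
    Tendsto z (𝓝[>] 0) (𝓝 (v m j * 2)) ∧ good m (v m j * 2) ∧
    (∀ i, i ≠ j → Tendsto (fun ε => aa (z ε) i) (𝓝[>] 0) (𝓝 (aa (v m j * 2) i))) ∧
    (s ≠ 0 → ∀ᶠ ε in 𝓝[>] 0, z ε ∈ Om m) ∧
    (∀ ε, 1 - z ε * v m (-j) = -1 - (s * ε : ℝ) * I) := by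
  intro z
  have hzc : Continuous z := by
    show Continuous fun ε : ℝ => v m j * (2 + (s * ε : ℝ) * I)
    fun_prop
  have hz0 : z 0 = v m j * 2 := by simp [z]
  have ht : Tendsto z (𝓝[>] 0) (𝓝 (v m j * 2)) := by
    have := hzc.tendsto 0
    rw [hz0] at this
    exact this.mono_left nhdsWithin_le_nhds
  have hg : good m (v m j * 2) := by
    intro i h
    have h1 := congrArg norm h
    rw [norm_mul, v_norm, v_norm] at h1
    norm_num at h1
  have hs : ∀ i, i ≠ j → 1 - (v m j * 2) * v m (-i) ∈ slitPlane := by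
    intro i hi
    have h3 : 1 - (v m j * 2) * v m (-i) = 1 - 2 * v m (j - i) := by
      rw [sub_eq_add_neg j i, v_add]; ring
    rw [h3]
    exact re_v_ne h2 (sub_ne_zero.2 hi.symm)
  have hj : ∀ ε, 1 - z ε * v m (-j) = -1 - (s * ε : ℝ) * I := by
    intro ε
    have h3 := v_neg m j
    show 1 - (v m j * (2 + (s * ε : ℝ) * I)) * v m (-j) = _
    linear_combination (-(2 + (s * ε : ℝ) * I)) * h3
  refine ⟨ht, hg, ?_, ?_, hj⟩
  · intro i hi
    exact (continuousAt_aa (hs i hi)).tendsto.comp ht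
  · intro hs0
    have h5 : ∀ᶠ ε in 𝓝[>] (0 : ℝ), ∀ i, i ≠ j → 1 - z ε * v m (-i) ∈ slitPlane := by
      rw [eventually_all]
      intro i
      by_cases hi : i = j
      · exact Eventually.of_forall fun ε h => absurd hi h
      · have h6 : Tendsto (fun ε => 1 - z ε * v m (-i)) (𝓝[>] 0)
            (𝓝 (1 - (v m j * 2) * v m (-i))) :=
          tendsto_const_nhds.sub (ht.mul_const _)
        filter_upwards [h6.eventually (isOpen_slitPlane.mem_nhds (hs i hi))] with ε hε _
        exact hε
    filter_upwards [h5, self_mem_nhdsWithin] with ε hε hε0 i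
    by_cases hi : i = j
    · rw [hi, hj]
      right
      have : ε ≠ 0 := ne_of_gt hε0
      simp [hs0, this]
    · exact hε i hi

theorem aa_lim (h2 : m ≠ 2) (j : ZMod m) :
    Tendsto (fun ε : ℝ => aa (v m j * (2 + (1 * ε : ℝ) * I)) j) (𝓝[>] 0)
      (𝓝 (- aa (v m j * 2) j)) ∧
    Tendsto (fun ε : ℝ => aa (v m j * (2 + ((-1) * ε : ℝ) * I)) j) (𝓝[>] 0)
      (𝓝 (aa (v m j * 2) j)) := by
  have hlog : log (-1 : ℂ) = Real.pi * I := log_neg_one
  have h0 : aa (v m j * 2) j = sq (-1) := by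
    unfold aa
    congr 1
    have h3 := v_neg m j
    linear_combination (-2) * h3
  have e1 := (side h2 j 1).2.2.2.2
  have e2 := (side h2 j (-1)).2.2.2.2
  simp only at e1 e2
  have c1 : Continuous fun ε : ℝ => (-1 : ℂ) - (1 * ε : ℝ) * I := by fun_prop
  have c2 : Continuous fun ε : ℝ => (-1 : ℂ) - ((-1) * ε : ℝ) * I := by fun_prop
  constructor
  · have t1 : Tendsto (fun ε : ℝ => (-1 : ℂ) - (1 * ε : ℝ) * I) (𝓝[>] 0)
        (𝓝[{z : ℂ | z.im < 0}] (-1)) := by
      refine tendsto_nhdsWithin_iff.2 ⟨?_, ?_⟩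
      · have := c1.tendsto 0
        simp only [mul_zero, ofReal_zero, zero_mul, sub_zero] at this
        exact this.mono_left nhdsWithin_le_nhds
      · filter_upwards [self_mem_nhdsWithin] with ε hε
        have : (0 : ℝ) < ε := hε
        simp [this]
    have t2 := (tendsto_log_nhdsWithin_im_neg_of_re_neg_of_im_zero (z := -1) (by simp)
      (by simp)).comp t1
    have t3 : Tendsto (fun ε : ℝ => sq ((-1 : ℂ) - (1 * ε : ℝ) * I)) (𝓝[>] 0)
        (𝓝 (exp ((Real.log ‖(-1 : ℂ)‖ - Real.pi * I) / 2))) := by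
      unfold sq
      exact (continuous_exp.tendsto _).comp (t2.div_const 2)
    have h4 : exp ((Real.log ‖(-1 : ℂ)‖ - Real.pi * I) / 2) = - sq (-1) := by
      rw [sq, hlog]
      have : ((Real.log ‖(-1 : ℂ)‖ : ℝ) - Real.pi * I) / 2 = Real.pi * I / 2 - Real.pi * I := by
        simp; ring
      rw [this, exp_sub_pi_mul_I]
    rw [h4] at t3
    rw [h0]
    unfold aa
    simp only [e1]
    exact t3
  · have t1 : Tendsto (fun ε : ℝ => (-1 : ℂ) - ((-1) * ε : ℝ) * I) (𝓝[>] 0)
        (𝓝[{z : ℂ | 0 ≤ z.im}] (-1)) := by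
      refine tendsto_nhdsWithin_iff.2 ⟨?_, ?_⟩
      · have := c2.tendsto 0
        simp only [mul_zero, ofReal_zero, zero_mul, sub_zero] at this
        exact this.mono_left nhdsWithin_le_nhds
      · filter_upwards [self_mem_nhdsWithin] with ε hε
        have : (0 : ℝ) < ε := hε
        simp [this.le]
    have t2 := (continuousWithinAt_log_of_re_neg_of_im_zero (z := -1) (by simp)
      (by simp)).tendsto.comp t1
    have t3 : Tendsto (fun ε : ℝ => sq ((-1 : ℂ) - ((-1) * ε : ℝ) * I)) (𝓝[>] 0)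
        (𝓝 (sq (-1))) := by
      unfold sq
      exact (continuous_exp.tendsto _).comp (t2.div_const 2)
    rw [h0]
    unfold aa
    simp only [e2]
    exact t3

theorem RR_one (h2 : m ≠ 2) (j : ZMod m) : RR h2 1 (eT {j}) := by
  obtain ⟨l1, l2⟩ := aa_lim h2 j
  refine ⟨s0 h2 (v m j * 2), ?_, ?_⟩
  · obtain ⟨a1, a2, a3, a4, a5⟩ := side h2 j (-1)
    have h3 := tendsto_s0 h2 a1 a2 (fun _ => 1) 1 (fun j => by simp) (fun i => by
      rw [sg_one, one_mul]
      by_cases hi : i = j
      · subst hi; exact l2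
      · exact a3 i hi)
    refine mem_closure_of_tendsto h3 ?_
    filter_upwards [a4 (by norm_num)] with ε hε
    exact ⟨_, ⟨_, hε, rfl⟩, rfl⟩
  · obtain ⟨a1, a2, a3, a4, a5⟩ := side h2 j 1
    have h3 := tendsto_s0 h2 a1 a2 (et {j}) (eT {j}) (fun j => rfl) (fun i => by
      by_cases hi : i = j
      · subst hi
        have : et {i} i = -1 := by simp [et]
        rw [this]
        have h4 : sg (-1) = -1 := by simp [sg]
        rw [h4, neg_one_mul]
        exact l1
      · have : et {j} i = 1 := by simp [et, hi]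
        rw [this, sg_one, one_mul]
        exact a3 i hi)
    refine mem_closure_of_tendsto h3 ?_
    filter_upwards [a4 (by norm_num)] with ε hε
    exact ⟨_, ⟨_, hε, rfl⟩, rfl⟩

theorem act_YY (h2 : m ≠ 2) (a b : A m) : act a '' YY h2 b = YY h2 (a * b) := by
  unfold YY
  rw [← image_comp]
  congr 1
  funext x
  exact (act_mul a b x).symm

theorem RR_mul (h2 : m ≠ 2) {a b : A m} (c : A m) (h : RR h2 a b) : RR h2 (c * a) (c * b) := by
  obtain ⟨x, hx1, hx2⟩ := h
  refine ⟨act c x, ?_, ?_⟩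
  · rw [← act_YY]
    exact image_closure_subset_closure_image (continuous_act c) ⟨x, hx1, rfl⟩
  · rw [← act_YY]
    exact image_closure_subset_closure_image (continuous_act c) ⟨x, hx2, rfl⟩

theorem eT_insert {j : ZMod m} {T : Finset (ZMod m)} (hj : j ∉ T) :
    eT (insert j T) = eT T * eT {j} := by
  apply Subtype.ext
  funext i
  have h1 : ∀ i, et (insert j T) i = et T i * et {j} i := by
    intro i
    unfold et
    by_cases hi : i = j
    · subst hi; simp [hj]
    · simp [hi]
  show et (insert j T) i * et (insert j T) (i + 1) = (et T i * et T (i + 1)) * (et {j} i * et {j} (i + 1))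
  rw [h1, h1]
  exact mul_mul_mul_comm _ _ _ _

theorem chain_eT (h2 : m ≠ 2) (T : Finset (ZMod m)) (a : A m) :
    ReflTransGen (RR h2) a (a * eT T) := by
  classical
  induction T using Finset.induction_on with
  | empty =>
    have : eT (∅ : Finset (ZMod m)) = 1 := by
      apply Subtype.ext; funext i
      show et ∅ i * et ∅ (i + 1) = 1
      simp [et]
    rw [this, mul_one]
  | insert j T hj ih =>
    rw [eT_insert hj]
    refine ih.tail ?_
    have := RR_mul h2 (a * eT T) (RR_one h2 j)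
    rwa [mul_one, mul_assoc] at this

theorem exists_eT (e : A m) : ∃ T, e = eT T := by
  classical
  let η : ZMod m → ℤˣ := fun j => ∏ i ∈ Finset.range j.val, e.1 (i : ZMod m)
  refine ⟨Finset.univ.filter fun j => η j = -1, ?_⟩
  have h1 : ∀ j, et (Finset.univ.filter fun j => η j = -1) j = η j := by
    intro j
    unfold et
    rcases Int.units_eq_one_or (η j) with h | h
    · simp [h]
    · simp [h]
  apply Subtype.ext
  funext j
  show e.1 j = et _ j * et _ (j + 1)
  rw [h1, h1]
  have hjlt := ZMod.val_lt j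
  by_cases hj : j.val + 1 < m
  · have hf : Fact (1 < m) := ⟨hm.out.one_lt⟩
    have h3 : (j + 1).val = j.val + 1 := by
      rw [ZMod.val_add_of_lt, ZMod.val_one m]
      rw [ZMod.val_one m]; exact hj
    show e.1 j = η j * ∏ i ∈ Finset.range (j + 1).val, e.1 (i : ZMod m)
    rw [h3, Finset.prod_range_succ, ZMod.natCast_zmod_val]
    show e.1 j = η j * (η j * e.1 j)
    rw [← mul_assoc, Int.units_mul_self, one_mul]
  · have hv : j.val + 1 = m := by omega
    have h3 : j + 1 = 0 := by
      have : ((j.val + 1 : ℕ) : ZMod m) = 0 := by rw [hv]; simp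
      rw [Nat.cast_add, ZMod.natCast_zmod_val, Nat.cast_one] at this
      exact this
    have h4 : η (j + 1) = 1 := by
      rw [h3]
      show ∏ i ∈ Finset.range (0 : ZMod m).val, e.1 (i : ZMod m) = 1
      rw [ZMod.val_zero]; simp
    rw [h4, mul_one]
    have h5 : (∏ i ∈ Finset.range m, e.1 (i : ZMod m)) = 1 := by
      rw [← mem_A.1 e.2]
      refine Finset.prod_nbij (fun i : ℕ => (i : ZMod m)) (fun _ _ => Finset.mem_univ _) ?_ ?_
        (fun _ _ => rfl)
      · intro a ha b hb h
        have ha' : a < m := by simpa using ha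
        have hb' : b < m := by simpa using hb
        have h9 := (ZMod.natCast_eq_natCast_iff' a b m).1 h
        rwa [Nat.mod_eq_of_lt ha', Nat.mod_eq_of_lt hb'] at h9
      · intro i _
        exact ⟨i.val, by simpa using ZMod.val_lt i, ZMod.natCast_zmod_val i⟩
    have hr : Finset.range m = Finset.range (j.val + 1) := by rw [hv]
    rw [hr, Finset.prod_range_succ, ZMod.natCast_zmod_val] at h5
    have h6 : η j * e.1 j = 1 := h5
    have h7 := Int.units_mul_self (η j)
    calc e.1 j = (η j * η j) * e.1 j := by rw [h7, one_mul]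
      _ = η j * (η j * e.1 j) := mul_assoc _ _ _
      _ = η j := by rw [h6, mul_one]

theorem preconnected_curve (h2 : m ≠ 2) : IsPreconnected (univ : Set (Curve m)) := by
  rw [← iUnion_YY h2]
  refine IsPreconnected.iUnion_of_reflTransGen (fun e => YY_preconn h2 e) fun a b => ?_
  obtain ⟨T, hT⟩ := exists_eT (a⁻¹ * b)
  have h3 := chain_eT h2 T a
  rw [← hT, mul_inv_cancel_left] at h3
  exact h3

end Pool.Agent.H900R3.Dir
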