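import Pool.Agent.H900R3.Dir.Act

open Set Filter Topology MeasureTheory Complex
open scoped ContDiff

namespace Pool.Agent.H900R3.Dir

variable {m : ℕ} [hm : Fact m.Prime]

noncomputable instance : MeasurableSpace (Curve m) := Subtype.instMeasurableSpace
instance : BorelSpace (Curve m) := Subtype.borelSpace _

theorem two_ne (h2 : m ≠ 2) : (2 : ZMod m) ≠ 0 := by
  intro h
  have h1 : ((2 : ℕ) : ZMod m) = 0 := by exact_mod_cast h
  rw [ZMod.natCast_eq_zero_iff] at h1
  exact h2 ((Nat.prime_dvd_prime_iff_eq hm.out Nat.prime_two).1 h1)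

variable (m) in
/-- a constant -/
noncomputable def kap : ℂ := v m (-(2 : ZMod m)⁻¹)

theorem kap_sq (h2 : m ≠ 2) : kap m ^ 2 = v m (-1) := by
  rw [kap, pow_two, ← v_add]
  congr 1
  have := two_ne h2
  field_simp
  norm_num

theorem kap_pow : kap m ^ m = 1 := by
  rw [kap, v, ← AddChar.map_nsmul_eq_pow, nsmul_eq_mul, CharP.cast_eq_zero, zero_mul,
    AddChar.map_zero_eq_one]

/-- square roots -/
noncomputable def aa (z : ℂ) (j : ZMod m) : ℂ := sq (1 - z * v m (-j))

theorem sub_v (z : ℂ) (j : ZMod m) : z - v m j = - v m j * (1 - z * v m (-j)) := by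
  have := v_neg m j
  linear_combination (-z) * this

theorem aa_arg_ne {z : ℂ} (h : good m z) (j : ZMod m) : 1 - z * v m (-j) ≠ 0 := by
  intro h1
  apply h j
  have := sub_v z j
  rw [h1, mul_zero] at this
  exact sub_eq_zero.1 this

/-- the base section -/
noncomputable def S0 (h2 : m ≠ 2) (z : ℂ) (h : good m z) : Curve m :=
  Curve.mk' z (fun j => kap m * aa z j / aa z (j + 1)) h
    (fun j => by
      have e1 := sub_v z j
      have e2 := sub_v z (j + 1)
      have e3 : aa z (j + 1) ^ 2 = 1 - z * v m (-(j + 1)) := sq_sq (aa_arg_ne h _)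
      have e4 : aa z j ^ 2 = 1 - z * v m (-j) := sq_sq (aa_arg_ne h _)
      have e5 : aa z (j + 1) ≠ 0 := sq_ne _
      have e6 := kap_sq h2
      have e7 : v m (-1) * v m (j + 1) = v m j := by rw [← v_add]; congr 1; ring
      show (kap m * aa z j / aa z (j + 1)) ^ 2 * (z - v m (j + 1)) = z - v m j
      rw [e1, e2, div_pow, mul_pow, e6, e4, ← e3]
      field_simp
      rw [← e7]
      ring)
    (by
      have h1 : ∏ j : ZMod m, aa z (j + 1) = ∏ j : ZMod m, aa z j :=
        Fintype.prod_equiv (Equiv.addRight 1) _ _ (fun j => rfl)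
      rw [Finset.prod_div_distrib, Finset.prod_mul_distrib, h1, Finset.prod_const,
        Finset.card_univ, ZMod.card, kap_pow, one_mul]
      exact div_self (Finset.prod_ne_zero_iff.2 fun j _ => sq_ne _))

variable (m) in
theorem good_zero : good m 0 := fun j h => v_ne m j h.symm

open Classical in
variable (m) in
noncomputable def ww (z : ℂ) : ℂ := if good m z then z else 0

variable (m) in
theorem ww_good (z : ℂ) : good m (ww m z) := by
  unfold ww
  split_ifs with h
  · exact h
  · exact good_zero m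

theorem ww_eq {z : ℂ} (h : good m z) : ww m z = z := if_pos h

noncomputable def s0 (h2 : m ≠ 2) (z : ℂ) : Curve m := S0 h2 (ww m z) (ww_good m z)

theorem pr_s0 (h2 : m ≠ 2) {z : ℂ} (h : good m z) : pr (s0 h2 z) = z := ww_eq h

theorem measurable_sq : Measurable sq := by unfold sq; fun_prop

theorem measurable_ww : Measurable (ww m) :=
  Measurable.ite (isOpen_good m).measurableSet measurable_id measurable_const

theorem measurable_s0 (h2 : m ≠ 2) : Measurable (s0 (m := m) h2) := by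
  refine Measurable.subtype_mk (f := fun z => ((ww m z, fun j => kap m * aa (ww m z) j /
    aa (ww m z) (j + 1)) : ℂ × (ZMod m → ℂ))) ?_
  refine measurable_ww.prodMk (measurable_pi_lambda _ fun j => ?_)
  have h1 : ∀ i : ZMod m, Measurable fun z => aa (m := m) (ww m z) i := by
    intro i
    unfold aa
    exact measurable_sq.comp (measurable_const.sub (measurable_ww.mul_const _))
  exact (measurable_const.mul (h1 j)).div (h1 (j + 1))

variable (m) in
theorem ae_good : ∀ᵐ z : ℂ, good m z := by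
  have h1 : (range (v m)).Finite := finite_range _
  have h2 : volume (range (v m)) = 0 := h1.measure_zero _
  have h3 : {z : ℂ | ¬ good m z} ⊆ range (v m) := by
    intro z hz
    simp only [good, not_forall, not_not, mem_ofPred_eq] at hz
    obtain ⟨j, hj⟩ := hz
    exact ⟨j, hj.symm⟩
  exact measure_mono_null h3 h2

/-- fibre integral -/
noncomputable def FI (g : Curve m → ℝ) : ℝ := ∫ z : ℂ, ∑ᶠ x ∈ pr ⁻¹' {z}, g x

/-- continuous functions with support in the domain -/
def Adm (r : ℝ) (g : Curve m → ℝ) : Prop := Continuous g ∧ ∀ x, x ∉ KK m r → g x = 0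

theorem fib_eq (h2 : m ≠ 2) {z : ℂ} (h : good m z) (g : Curve m → ℝ) :
    ∑ᶠ x ∈ pr ⁻¹' {z}, g x = ∑ e : A m, g (act e (s0 h2 z)) := by
  have := finsum_fiber (s0 h2 z) g
  rwa [pr_s0 h2 h] at this

theorem Adm.integrable {r : ℝ} (hr : 0 < r) (h2 : m ≠ 2) {g : Curve m → ℝ} (hg : Adm r g)
    (e : A m) : Integrable fun z => g (act e (s0 h2 z)) := by
  obtain ⟨C, hC⟩ := (isCompact_KK (m := m) hr).exists_bound_of_continuousOn hg.1.continuousOn
  have hC0 : ∀ x, ‖g x‖ ≤ |C| := by
    intro x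
    by_cases hx : x ∈ KK m r
    · exact (hC x hx).trans (le_abs_self C)
    · rw [hg.2 x hx, norm_zero]; exact abs_nonneg C
  have hmeas : Measurable fun z => g (act e (s0 h2 z)) :=
    hg.1.measurable.comp ((continuous_act e).measurable.comp (measurable_s0 h2))
  have hdom : Integrable ((Metric.closedBall (0 : ℂ) 2).indicator fun _ => |C|) := by
    rw [integrable_indicator_iff Metric.isClosed_closedBall.measurableSet]
    exact integrableOn_const (by
      exact (isCompact_closedBall (0 : ℂ) 2).measure_lt_top.ne)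
  refine hdom.mono' hmeas.aestronglyMeasurable ?_
  filter_upwards [ae_good m] with z hz
  by_cases hz2 : z ∈ Metric.closedBall (0 : ℂ) 2
  · rw [indicator_of_mem hz2]; exact hC0 _
  · rw [indicator_of_notMem hz2]
    rw [hg.2, norm_zero]
    intro h
    apply hz2
    have h3 := h.1
    rw [pr_act, pr_s0 h2 hz] at h3
    simpa using h3

theorem FI_eq {r : ℝ} (hr : 0 < r) (h2 : m ≠ 2) {g : Curve m → ℝ} (hg : Adm r g) :
    FI g = ∑ e : A m, ∫ z, g (act e (s0 h2 z)) := by
  rw [← integral_finsetSum _ (fun e _ => hg.integrable hr h2 e), FI]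
  refine integral_congr_ae ?_
  filter_upwards [ae_good m] with z hz
  exact fib_eq h2 hz g

theorem Adm.add {r : ℝ} {g h : Curve m → ℝ} (hg : Adm r g) (hh : Adm r h) :
    Adm r (fun x => g x + h x) :=
  ⟨hg.1.add hh.1, fun x hx => by show g x + h x = 0; rw [hg.2 x hx, hh.2 x hx, add_zero]⟩

theorem Adm.const_mul {r : ℝ} {g : Curve m → ℝ} (hg : Adm r g) (c : ℝ) :
    Adm r (fun x => c * g x) :=
  ⟨continuous_const.mul hg.1, fun x hx => by show c * g x = 0; rw [hg.2 x hx, mul_zero]⟩

theorem FI_add {r : ℝ} (hr : 0 < r) (h2 : m ≠ 2) {g h : Curve m → ℝ} (hg : Adm r g)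
    (hh : Adm r h) : FI (fun x => g x + h x) = FI g + FI h := by
  rw [FI_eq hr h2 (hg.add hh), FI_eq hr h2 hg, FI_eq hr h2 hh, ← Finset.sum_add_distrib]
  exact Finset.sum_congr rfl fun e _ => integral_add (hg.integrable hr h2 e) (hh.integrable hr h2 e)

theorem FI_const_mul {r : ℝ} (hr : 0 < r) (h2 : m ≠ 2) {g : Curve m → ℝ} (hg : Adm r g) (c : ℝ) :
    FI (fun x => c * g x) = c * FI g := by
  rw [FI_eq hr h2 (hg.const_mul c), FI_eq hr h2 hg, Finset.mul_sum]
  exact Finset.sum_congr rfl fun e _ => integral_const_mul _ _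

theorem FI_nonneg {g : Curve m → ℝ} (hg : ∀ x, 0 ≤ g x) : 0 ≤ FI g :=
  integral_nonneg fun z => finsum_nonneg fun x => finsum_nonneg fun _ => hg x

theorem Adm.comp_act {r : ℝ} {g : Curve m → ℝ} (hg : Adm r g) (e : A m) :
    Adm r (fun x => g (act e x)) :=
  ⟨hg.1.comp (continuous_act e), fun x hx => hg.2 _ (by rwa [act_mem_KK])⟩

theorem Adm.comp_rot {r : ℝ} {g : Curve m → ℝ} (hg : Adm r g) :
    Adm r (fun x => g (rot x)) :=
  ⟨hg.1.comp continuous_rot, fun x hx => hg.2 _ (by rwa [rot_mem_KK])⟩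

theorem FI_act {r : ℝ} (hr : 0 < r) (h2 : m ≠ 2) {g : Curve m → ℝ} (hg : Adm r g) (e : A m) :
    FI (fun x => g (act e x)) = FI g := by
  rw [FI_eq hr h2 (hg.comp_act e), FI_eq hr h2 hg]
  refine Fintype.sum_equiv (Equiv.mulLeft e) _ _ fun a => ?_
  simp only [Equiv.coe_mulLeft, act_mul]

theorem FI_rot (g : Curve m → ℝ) : FI (fun x => g (rot x)) = FI g := by
  have h1 : ∀ z : ℂ, ∑ᶠ x ∈ pr ⁻¹' {z}, g (rot x) = ∑ᶠ y ∈ pr ⁻¹' {v m 1 * z}, g y := by
    intro z
    exact finsum_mem_eq_of_bijOn rot (rot_bij_fiber z) (fun x _ => rfl)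
  unfold FI
  simp only [h1]
  have h3 : ∀ z : ℂ, v m 1 * z = rotation (ZMod.toCircle (1 : ZMod m)) z := by
    intro z; rw [rotation_apply]; rfl
  simp only [h3]
  exact (LinearIsometryEquiv.measurePreserving
    (rotation (ZMod.toCircle (1 : ZMod m)))).integral_comp
    (rotation (ZMod.toCircle (1 : ZMod m))).toHomeomorph.measurableEmbedding
    (fun w => ∑ᶠ y ∈ pr ⁻¹' {w}, g y)

theorem FI_pos {r : ℝ} (hr : 0 < r) (h2 : m ≠ 2) {g : Curve m → ℝ} (hg : Adm r g)
    (h0 : ∀ x, 0 ≤ g x) {x₀ : Curve m} (hx : 0 < g x₀) : 0 < FI g := by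
  have hF : FI g = ∫ z, ∑ e : A m, g (act e (s0 h2 z)) := by
    rw [FI_eq hr h2 hg, integral_finsetSum _ (fun e _ => hg.integrable hr h2 e)]
  have hint : Integrable fun z => ∑ e : A m, g (act e (s0 h2 z)) :=
    integrable_finsetSum _ (fun e _ => hg.integrable hr h2 e)
  have hnn : ∀ z, 0 ≤ ∑ e : A m, g (act e (s0 h2 z)) := fun z => Finset.sum_nonneg fun e _ => h0 _
  rw [hF, integral_pos_iff_support_of_nonneg hnn hint]
  have hπ := isLocalHomeomorph_pr (m := m)
  have h1 : ∀ᶠ z in 𝓝 (pr x₀), 0 < g (hπ.localInverseAt x₀ z) := by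
    have h2 := (hg.1.tendsto x₀).comp (tendsto_localInverse hπ x₀)
    exact h2.eventually (eventually_gt_nhds hx)
  have h3 := π_localInverse hπ x₀
  have h4 : ∀ᶠ z in 𝓝 (pr x₀), good m z := (isOpen_good m).mem_nhds (pr_good x₀)
  obtain ⟨U, hU, hUo, hxU⟩ := eventually_nhds_iff.1 (h1.and (h3.and h4))
  have h5 : U ⊆ Function.support fun z => ∑ e : A m, g (act e (s0 h2 z)) := by
    intro z hz
    obtain ⟨a, b, c⟩ := hU z hz
    obtain ⟨e, he⟩ := exists_act (x := s0 h2 z) (y := hπ.localInverseAt x₀ z)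
      (by rw [pr_s0 h2 c, b])
    have h6 : 0 < ∑ e : A m, g (act e (s0 h2 z)) := by
      refine lt_of_lt_of_le (b := g (act e (s0 h2 z))) (by rw [he]; exact a) ?_
      exact Finset.single_le_sum (f := fun e : A m => g (act e (s0 h2 z))) (fun e _ => h0 _)
        (Finset.mem_univ e)
    exact h6.ne'
  exact lt_of_lt_of_le (hUo.measure_pos _ ⟨_, hxU⟩) (measure_mono h5)

end Pool.Agent.H900R3.Dir
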