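import Pool.Agent.H900R3.Dir.Fib
import Pool.Agent.H900R3.Dir.MinMax

open Set Filter Topology MeasureTheory Complex
open scoped ContDiff

namespace Pool.Agent.H900R3.Dir

variable {m : ℕ} [hm : Fact m.Prime]

/-- short name -/
theorem hp : IsLocalHomeomorph (pr (m := m)) := isLocalHomeomorph_pr

/-- gradient product -/
noncomputable def ip (u w : Curve m → ℝ) (x : Curve m) : ℝ :=
  dAt hp u x 1 * dAt hp w x 1 + dAt hp u x I * dAt hp w x I

theorem dAt_act (u : Curve m → ℝ) (e : A m) (x : Curve m) :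
    dAt hp (fun y => u (act e y)) x = dAt hp u (act e x) := by
  let s : ℂ → Curve m := fun z => act e (hp.localInverseAt x z)
  have hs0 : s (pr x) = act e x := by
    show act e (hp.localInverseAt x (pr x)) = act e x
    rw [hp.localInverseAt_apply_self]
  have hs : ContinuousAt s (pr x) :=
    ((continuous_act e).tendsto _).comp (localInverse_continuousAt hp x)
  have hsπ : ∀ᶠ z in 𝓝 (pr x), pr (s z) = z := π_localInverse hp x
  have := dAt_section hp u hs hsπ
  rw [hs0] at this
  rw [this]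
  rfl

theorem smooth_act {n : WithTop ℕ∞} {u : Curve m → ℝ} (hu : SmoothC hp n u) (e : A m) :
    SmoothC hp n (fun y => u (act e y)) := by
  intro x
  let s : ℂ → Curve m := fun z => act e (hp.localInverseAt x z)
  have hs : ContinuousAt s (pr x) :=
    ((continuous_act e).tendsto _).comp (localInverse_continuousAt hp x)
  have hsπ : ∀ᶠ z in 𝓝 (pr x), pr (s z) = z := π_localInverse hp x
  exact contDiffAt_section hp hu hs hsπ

theorem rot_section (x : Curve m) :
    ContinuousAt (fun w => rot (hp.localInverseAt x (v m (-1) * w))) (v m 1 * pr x) ∧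
    (∀ᶠ w in 𝓝 (v m 1 * pr x), pr (rot (hp.localInverseAt x (v m (-1) * w))) = w) ∧
    rot (hp.localInverseAt x (v m (-1) * (v m 1 * pr x))) = rot x := by
  have h1 : v m (-1) * (v m 1 * pr x) = pr x := by
    rw [← mul_assoc, v_neg, one_mul]
  have ht : Tendsto (fun w => v m (-1) * w) (𝓝 (v m 1 * pr x)) (𝓝 (pr x)) := by
    have h0 : Continuous fun w : ℂ => v m (-1) * w := by fun_prop
    have := h0.tendsto (v m 1 * pr x)
    simp only [h1] at this
    exact this
  refine ⟨?_, ?_, ?_⟩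
  · refine (continuous_rot.tendsto _).comp ?_
    rw [h1]
    exact (localInverse_continuousAt hp x).tendsto.comp ht
  · filter_upwards [ht.eventually (π_localInverse hp x)] with w hw
    rw [pr_rot, hw, ← mul_assoc, mul_comm (v m 1), v_neg, one_mul]
  · rw [h1, hp.localInverseAt_apply_self]

theorem dAt_rot {u : Curve m → ℝ} (hu : SmoothC hp 1 u) (x : Curve m) (h : ℂ) :
    dAt hp (fun y => u (rot y)) x h = dAt hp u (rot x) (v m 1 * h) := by
  obtain ⟨h1, h2, h3⟩ := rot_section x
  have k1 := dAt_section hp u h1 h2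
  have k2 := contDiffAt_section hp hu h1 h2
  simp only [h3] at k1
  have k3 : loc hp (fun y => u (rot y)) x =
      (fun w => u (rot (hp.localInverseAt x (v m (-1) * w)))) ∘ (fun z => v m 1 * z) := by
    funext z
    simp only [loc, Function.comp]
    rw [← mul_assoc, v_neg, one_mul]
  have k4 : HasFDerivAt (fun z : ℂ => v m 1 * z) (ContinuousLinearMap.mul ℝ ℂ (v m 1)) (pr x) :=
    (ContinuousLinearMap.mul ℝ ℂ (v m 1)).hasFDerivAt
  have k5 := ((k2.differentiableAt (by simp)).hasFDerivAt.comp (pr x) k4).fderiv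
  rw [dAt, k3, k5, k1]
  rfl

theorem smooth_rot {n : WithTop ℕ∞} {u : Curve m → ℝ} (hu : SmoothC hp n u) :
    SmoothC hp n (fun y => u (rot y)) := by
  intro x
  obtain ⟨h1, h2, h3⟩ := rot_section x
  have k2 := contDiffAt_section hp hu h1 h2
  have k3 : loc hp (fun y => u (rot y)) x =
      (fun w => u (rot (hp.localInverseAt x (v m (-1) * w)))) ∘ (fun z => v m 1 * z) := by
    funext z
    simp only [loc, Function.comp]
    rw [← mul_assoc, v_neg, one_mul]
  rw [k3]
  exact ContDiffAt.comp (pr x) k2 (contDiff_const.mul contDiff_id).contDiffAt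

theorem ip_act (u w : Curve m → ℝ) (e : A m) (x : Curve m) :
    ip (fun y => u (act e y)) (fun y => w (act e y)) x = ip u w (act e x) := by
  simp only [ip, dAt_act]

theorem ip_rot {u w : Curve m → ℝ} (hu : SmoothC hp 1 u) (hw : SmoothC hp 1 w) (x : Curve m) :
    ip (fun y => u (rot y)) (fun y => w (rot y)) x = ip u w (rot x) := by
  simp only [ip, dAt_rot hu, dAt_rot hw]
  set a := v m 1 with ha
  have hn : a.re ^ 2 + a.im ^ 2 = 1 := by
    have := v_norm m 1
    rw [← ha] at this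
    have h2 := Complex.sq_norm a
    rw [this, normSq_apply] at h2
    linarith
  have key : ∀ L : ℂ →L[ℝ] ℝ, L (a * 1) = a.re * L 1 + a.im * L I ∧
      L (a * I) = - a.im * L 1 + a.re * L I := by
    intro L
    constructor
    · have : a * 1 = a.re • (1 : ℂ) + a.im • I := by
        apply Complex.ext <;> simp
      rw [this, map_add, map_smul, map_smul]; rfl
    · have : a * I = (-a.im) • (1 : ℂ) + a.re • I := by
        apply Complex.ext <;> simp
      rw [this, map_add, map_smul, map_smul]; rfl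
  rw [(key _).1, (key _).1, (key _).2, (key _).2]
  linear_combination (dAt hp u (rot x) 1 * dAt hp w (rot x) 1 +
    dAt hp u (rot x) I * dAt hp w (rot x) I) * hn

theorem dAt_off {r : ℝ} (hr : 0 < r) {u : Curve m → ℝ} (hu : ∀ x, x ∉ KK m r → u x = 0)
    {x : Curve m} (hx : x ∉ KK m r) : dAt hp u x = 0 := by
  have h1 : ∀ᶠ y in 𝓝 x, y ∉ KK m r :=
    (isCompact_KK hr).isClosed.isOpen_compl.mem_nhds hx
  have h2 : loc hp u x =ᶠ[𝓝 (pr x)] fun _ => 0 := by
    filter_upwards [(tendsto_localInverse hp x).eventually h1] with z hz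
    exact hu _ hz
  rw [dAt, h2.fderiv_eq, fderiv_fun_const]
  rfl

theorem adm_ip {r : ℝ} (hr : 0 < r) {u w : Curve m → ℝ} (hu : u ∈ test hp (KK m r))
    (hw : w ∈ test hp (KK m r)) : Adm r (ip u w) := by
  constructor
  · unfold ip
    have h1 := continuous_dAt hp hu.1
    have h2 := continuous_dAt hp hw.1
    exact ((h1.clm_apply continuous_const).mul (h2.clm_apply continuous_const)).add
      ((h1.clm_apply continuous_const).mul (h2.clm_apply continuous_const))
  · intro x hx
    simp only [ip, dAt_off hr hu.2 hx]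
    simp

/-- mass product -/
noncomputable def mp (ρ : ℂ → ℝ) (u w : Curve m → ℝ) (x : Curve m) : ℝ := ρ (pr x) * (u x * w x)

theorem adm_mp {r : ℝ} {ρ : ℂ → ℝ} (hρ : Continuous ρ) {u w : Curve m → ℝ}
    (hu : u ∈ test hp (KK m r)) (hw : w ∈ test hp (KK m r)) : Adm r (mp ρ u w) := by
  constructor
  · exact (hρ.comp continuous_pr).mul ((continuous_of_smooth hp hu.1).mul
      (continuous_of_smooth hp hw.1))
  · intro x hx
    simp only [mp, hu.2 x hx]
    simp

/-- the Dirichlet form -/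
noncomputable def DD {r : ℝ} (hr : 0 < r) (h2 : m ≠ 2) :
    LinearMap.BilinForm ℝ (test (hp (m := m)) (KK m r)) :=
  LinearMap.mk₂ ℝ (fun u w => FI (ip u.1 w.1))
    (fun u v w => by
      rw [← FI_add hr h2 (adm_ip hr u.2 w.2) (adm_ip hr v.2 w.2)]
      congr 1; funext x
      simp only [ip, Submodule.coe_add, dAt_add hp u.2.1 v.2.1, _root_.add_apply]
      ring)
    (fun c u w => by
      rw [smul_eq_mul, ← FI_const_mul hr h2 (adm_ip hr u.2 w.2)]
      congr 1; funext x
      simp only [ip, Submodule.coe_smul, dAt_smul hp u.2.1, _root_.smul_apply,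
        smul_eq_mul]
      ring)
    (fun u v w => by
      rw [← FI_add hr h2 (adm_ip hr u.2 v.2) (adm_ip hr u.2 w.2)]
      congr 1; funext x
      simp only [ip, Submodule.coe_add, dAt_add hp v.2.1 w.2.1, _root_.add_apply]
      ring)
    (fun c u w => by
      rw [smul_eq_mul, ← FI_const_mul hr h2 (adm_ip hr u.2 w.2)]
      congr 1; funext x
      simp only [ip, Submodule.coe_smul, dAt_smul hp w.2.1, _root_.smul_apply,
        smul_eq_mul]
      ring)

/-- the mass form -/
noncomputable def BB {r : ℝ} (hr : 0 < r) (h2 : m ≠ 2) {ρ : ℂ → ℝ} (hρ : Continuous ρ) :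
    LinearMap.BilinForm ℝ (test (hp (m := m)) (KK m r)) :=
  LinearMap.mk₂ ℝ (fun u w => FI (mp ρ u.1 w.1))
    (fun u v w => by
      rw [← FI_add hr h2 (adm_mp hρ u.2 w.2) (adm_mp hρ v.2 w.2)]
      congr 1; funext x
      simp only [mp, Submodule.coe_add, Pi.add_apply]
      ring)
    (fun c u w => by
      rw [smul_eq_mul, ← FI_const_mul hr h2 (adm_mp hρ u.2 w.2)]
      congr 1; funext x
      simp only [mp, Submodule.coe_smul, Pi.smul_apply, smul_eq_mul]
      ring)
    (fun u v w => by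
      rw [← FI_add hr h2 (adm_mp hρ u.2 v.2) (adm_mp hρ u.2 w.2)]
      congr 1; funext x
      simp only [mp, Submodule.coe_add, Pi.add_apply]
      ring)
    (fun c u w => by
      rw [smul_eq_mul, ← FI_const_mul hr h2 (adm_mp hρ u.2 w.2)]
      congr 1; funext x
      simp only [mp, Submodule.coe_smul, Pi.smul_apply, smul_eq_mul]
      ring)

theorem DD_apply {r : ℝ} (hr : 0 < r) (h2 : m ≠ 2) (u w : test (hp (m := m)) (KK m r)) :
    DD hr h2 u w = FI (ip u.1 w.1) := rfl

theorem BB_apply {r : ℝ} (hr : 0 < r) (h2 : m ≠ 2) {ρ : ℂ → ℝ} (hρ : Continuous ρ)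
    (u w : test (hp (m := m)) (KK m r)) :
    BB hr h2 hρ u w = FI (mp ρ u.1 w.1) := rfl

theorem DD_nonneg {r : ℝ} (hr : 0 < r) (h2 : m ≠ 2) (u : test (hp (m := m)) (KK m r)) :
    0 ≤ DD hr h2 u u := by
  rw [DD_apply]
  exact FI_nonneg fun x => by
    unfold ip; nlinarith [sq_nonneg (dAt hp u.1 x 1), sq_nonneg (dAt hp u.1 x I)]

theorem BB_pos {r : ℝ} (hr : 0 < r) (h2 : m ≠ 2) {ρ : ℂ → ℝ} (hρ : Continuous ρ)
    (hρ0 : ∀ z, 0 < ρ z) (u : test (hp (m := m)) (KK m r)) (hu : u ≠ 0) :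
    0 < BB hr h2 hρ u u := by
  rw [BB_apply]
  obtain ⟨x, hx⟩ : ∃ x, u.1 x ≠ 0 := by
    by_contra h
    push Not at h
    exact hu (Subtype.ext (funext h))
  refine FI_pos hr h2 (adm_mp hρ u.2 u.2) (fun x => ?_) (x₀ := x) ?_
  · unfold mp
    have := (hρ0 (pr x)).le
    nlinarith [mul_nonneg this (sq_nonneg (u.1 x))]
  · unfold mp
    have := hρ0 (pr x)
    have h3 : 0 < u.1 x * u.1 x := mul_self_pos.2 hx
    positivity

/-- action on test functions -/
noncomputable def Ta {r : ℝ} (e : A m) :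
    test (hp (m := m)) (KK m r) →ₗ[ℝ] test (hp (m := m)) (KK m r) where
  toFun u := ⟨fun x => u.1 (act e x), smooth_act u.2.1 e, fun x hx => u.2.2 _ (by rwa [act_mem_KK])⟩
  map_add' u w := rfl
  map_smul' c u := rfl

/-- rotation on test functions -/
noncomputable def Tr {r : ℝ} :
    test (hp (m := m)) (KK m r) →ₗ[ℝ] test (hp (m := m)) (KK m r) where
  toFun u := ⟨fun x => u.1 (rot x), smooth_rot u.2.1, fun x hx => u.2.2 _ (by rwa [rot_mem_KK])⟩
  map_add' u w := rfl
  map_smul' c u := rfl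

theorem DD_act {r : ℝ} (hr : 0 < r) (h2 : m ≠ 2) (u w : test (hp (m := m)) (KK m r)) (e : A m) :
    DD hr h2 (Ta e u) (Ta e w) = DD hr h2 u w := by
  rw [DD_apply, DD_apply, ← FI_act hr h2 (adm_ip hr u.2 w.2) e]
  congr 1; funext x
  exact ip_act _ _ _ _

theorem BB_act {r : ℝ} (hr : 0 < r) (h2 : m ≠ 2) {ρ : ℂ → ℝ} (hρ : Continuous ρ)
    (u w : test (hp (m := m)) (KK m r)) (e : A m) :
    BB hr h2 hρ (Ta e u) (Ta e w) = BB hr h2 hρ u w := by
  rw [BB_apply, BB_apply, ← FI_act hr h2 (adm_mp hρ u.2 w.2) e]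
  rfl

theorem DD_rot {r : ℝ} (hr : 0 < r) (h2 : m ≠ 2) (u w : test (hp (m := m)) (KK m r)) :
    DD hr h2 (Tr u) (Tr w) = DD hr h2 u w := by
  rw [DD_apply, DD_apply, ← FI_rot (ip u.1 w.1)]
  congr 1; funext x
  exact ip_rot u.2.1 w.2.1 x

theorem BB_rot {r : ℝ} (hr : 0 < r) (h2 : m ≠ 2) {ρ : ℂ → ℝ} (hρ : Continuous ρ)
    (hρr : ∀ z, ρ (v m 1 * z) = ρ z) (u w : test (hp (m := m)) (KK m r)) :
    BB hr h2 hρ (Tr u) (Tr w) = BB hr h2 hρ u w := by
  rw [BB_apply, BB_apply, ← FI_rot (mp ρ u.1 w.1)]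
  congr 1; funext x
  simp only [mp, pr_rot, hρr]
  rfl

end Pool.Agent.H900R3.Dir
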