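import Pool.Agent.H900R3.Dir.Plane

open Set Filter Topology MeasureTheory
open scoped ContDiff Interval

namespace Pool.Agent.H900R3.Dir

theorem hasDerivAt_pos2 (u : ℝ) : HasDerivAt (fun u : ℝ => (max 0 u) ^ 2) (2 * max 0 u) u := by
  rcases lt_trichotomy u 0 with h | h | h
  · have e : (fun u : ℝ => (max 0 u) ^ 2) =ᶠ[𝓝 u] fun _ => 0 := by
      filter_upwards [Iio_mem_nhds h] with w hw
      rw [max_eq_left (le_of_lt hw)]; simp
    rw [max_eq_left h.le, mul_zero]
    exact (hasDerivAt_const u (0 : ℝ)).congr_of_eventuallyEq e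
  · subst h
    rw [max_self, mul_zero]
    rw [hasDerivAt_iff_isLittleO_nhds_zero]
    have h1 : (fun h : ℝ => (max 0 (0 + h)) ^ 2 - (max 0 0) ^ 2 - h • (0 : ℝ)) =O[𝓝 0]
        fun h : ℝ => h ^ 2 := by
      refine Asymptotics.isBigO_of_le _ fun h => ?_
      simp only [zero_add, max_self, smul_eq_mul, mul_zero, sub_zero]
      norm_num
      rcases le_total h 0 with h | h
      · rw [max_eq_left h]; simp; positivity
      · rw [max_eq_right h]
    refine h1.trans_isLittleO ?_
    have := Asymptotics.isLittleO_pow_id (𝕜 := ℝ) (n := 2) (by norm_num)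
    exact this
  · have e : (fun u : ℝ => (max 0 u) ^ 2) =ᶠ[𝓝 u] fun u => u ^ 2 := by
      filter_upwards [Ioi_mem_nhds h] with w hw
      rw [max_eq_right (le_of_lt hw)]
    rw [max_eq_right h.le]
    have := (hasDerivAt_pow 2 u).congr_of_eventuallyEq e
    simpa using this

/-- the profile -/
noncomputable def T (t : ℝ) : ℝ := (max 0 (1 - t ^ 2)) ^ 2

/-- its derivative -/
noncomputable def T' (t : ℝ) : ℝ := 2 * max 0 (1 - t ^ 2) * (-(2 * t))

theorem hasDerivAt_T (t : ℝ) : HasDerivAt T (T' t) t := by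
  have h1 : HasDerivAt (fun t : ℝ => 1 - t ^ 2) (-(2 * t)) t := by
    have := (hasDerivAt_pow 2 t).const_sub 1
    simpa using this
  exact (hasDerivAt_pos2 (1 - t ^ 2)).comp t h1

theorem continuous_T' : Continuous T' := by unfold T'; fun_prop

theorem contDiff_T : ContDiff ℝ 1 T := by
  rw [contDiff_one_iff_deriv]
  refine ⟨fun t => (hasDerivAt_T t).differentiableAt, ?_⟩
  have : deriv T = T' := funext fun t => (hasDerivAt_T t).deriv
  rw [this]; exact continuous_T'

theorem T_zero {t : ℝ} (h : 1 ≤ t ^ 2) : T t = 0 := by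
  unfold T; rw [max_eq_left (by linarith)]; simp

theorem T'_zero {t : ℝ} (h : 1 ≤ t ^ 2) : T' t = 0 := by
  unfold T'; rw [max_eq_left (by linarith)]; simp

/-- the plane test function -/
noncomputable def phi (z : ℂ) : ℝ := T (2 * z.re) * T (2 * z.im)

theorem contDiff_phi : ContDiff ℝ 1 phi := by
  unfold phi
  refine ContDiff.mul ?_ ?_
  · exact contDiff_T.comp (contDiff_const.mul Complex.reCLM.contDiff)
  · exact contDiff_T.comp (contDiff_const.mul Complex.imCLM.contDiff)

theorem phi_zero {z : ℂ} (h : 3 / 4 ≤ ‖z‖) : phi z = 0 := by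
  unfold phi
  have h1 : ‖z‖ ^ 2 = z.re ^ 2 + z.im ^ 2 := by
    rw [Complex.sq_norm, Complex.normSq_apply]; ring
  by_cases hr : 1 ≤ (2 * z.re) ^ 2
  · rw [T_zero hr, zero_mul]
  · have : 1 ≤ (2 * z.im) ^ 2 := by
      push Not at hr
      nlinarith
    rw [T_zero this, mul_zero]

theorem fderiv_phi_one (x y : ℝ) : fderiv ℝ phi ⟨x, y⟩ 1 = 2 * T' (2 * x) * T (2 * y) := by
  have h1 := deriv_x contDiff_phi x y
  have h2 : HasDerivAt (fun x : ℝ => phi ⟨x, y⟩) (T' (2 * x) * 2 * T (2 * y)) x := by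
    unfold phi
    simp only
    refine HasDerivAt.mul_const ?_ _
    have h3 : HasDerivAt (fun x : ℝ => 2 * x) 2 x := by
      simpa using (hasDerivAt_id x).const_mul 2
    exact (hasDerivAt_T (2 * x)).comp x h3
  rw [h1.unique h2]; ring

theorem fderiv_phi_I (x y : ℝ) : fderiv ℝ phi ⟨x, y⟩ Complex.I = T (2 * x) * (2 * T' (2 * y)) := by
  have h1 := deriv_y contDiff_phi x y
  have h2 : HasDerivAt (fun y : ℝ => phi ⟨x, y⟩) (T (2 * x) * (T' (2 * y) * 2)) y := by
    unfold phi
    simp only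
    refine HasDerivAt.const_mul _ ?_
    have h3 : HasDerivAt (fun x : ℝ => 2 * x) 2 y := by
      simpa using (hasDerivAt_id y).const_mul 2
    exact (hasDerivAt_T (2 * y)).comp y h3
  rw [h1.unique h2]; ring

theorem int_poly {g : ℝ → ℝ} (hg : Continuous g) {p : ℝ → ℝ}
    (hz : ∀ x : ℝ, 1 ≤ (2 * x) ^ 2 → g x = 0) (hp : ∀ x : ℝ, (2 * x) ^ 2 ≤ 1 → g x = p x) :
    ∫ x in (-3 : ℝ)..3, g x = ∫ x in (-(1 / 2) : ℝ)..(1 / 2), p x := by
  have i := fun a b => hg.intervalIntegrable (μ := volume) a b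
  rw [← intervalIntegral.integral_add_adjacent_intervals (i (-3) (-(1 / 2))) (i _ 3),
    ← intervalIntegral.integral_add_adjacent_intervals (i (-(1 / 2)) (1 / 2)) (i _ 3)]
  have h1 : ∫ x in (-3 : ℝ)..(-(1 / 2)), g x = 0 := by
    have : ∫ x in (-3 : ℝ)..(-(1 / 2)), g x = ∫ x in (-3 : ℝ)..(-(1 / 2)), (0 : ℝ) := by
      refine intervalIntegral.integral_congr fun x hx => ?_
      rw [uIcc_of_le (by norm_num)] at hx
      exact hz x (by nlinarith [hx.1, hx.2])
    rw [this]; simp
  have h2 : ∫ x in (1 / 2 : ℝ)..3, g x = 0 := by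
    have : ∫ x in (1 / 2 : ℝ)..3, g x = ∫ x in (1 / 2 : ℝ)..3, (0 : ℝ) := by
      refine intervalIntegral.integral_congr fun x hx => ?_
      rw [uIcc_of_le (by norm_num)] at hx
      exact hz x (by nlinarith [hx.1, hx.2])
    rw [this]; simp
  rw [h1, h2, zero_add, add_zero]
  refine intervalIntegral.integral_congr fun x hx => ?_
  rw [uIcc_of_le (by norm_num)] at hx
  exact hp x (by nlinarith [hx.1, hx.2])

theorem continuous_T : Continuous T := by unfold T; fun_prop

theorem int_T'2 : ∫ x in (-3 : ℝ)..3, (2 * T' (2 * x)) ^ 2 = 512 / 105 := by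
  have hc := continuous_T'
  rw [int_poly (p := fun x => 256 * x ^ 2 - 2048 * x ^ 4 + 4096 * x ^ 6) (by fun_prop)]
  · rw [intervalIntegral.integral_add, intervalIntegral.integral_sub,
      intervalIntegral.integral_const_mul, intervalIntegral.integral_const_mul,
      intervalIntegral.integral_const_mul, integral_pow, integral_pow, integral_pow]
    · norm_num
    all_goals exact Continuous.intervalIntegrable (by fun_prop) _ _
  · intro x hx
    rw [T'_zero hx]; simp
  · intro x hx
    unfold T'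
    rw [max_eq_right (by linarith)]; ring

theorem int_T2 : ∫ x in (-3 : ℝ)..3, T (2 * x) ^ 2 = 128 / 315 := by
  have hc := continuous_T
  rw [int_poly (p := fun x => 1 - 16 * x ^ 2 + 96 * x ^ 4 - 256 * x ^ 6 + 256 * x ^ 8)
    (by fun_prop)]
  · rw [intervalIntegral.integral_add, intervalIntegral.integral_sub,
      intervalIntegral.integral_add, intervalIntegral.integral_sub,
      intervalIntegral.integral_const_mul, intervalIntegral.integral_const_mul,
      intervalIntegral.integral_const_mul, intervalIntegral.integral_const_mul,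
      integral_pow, integral_pow, integral_pow, integral_pow, intervalIntegral.integral_const]
    · norm_num
    all_goals exact Continuous.intervalIntegrable (by fun_prop) _ _
  · intro x hx
    rw [T_zero hx]; simp
  · intro x hx
    unfold T
    rw [max_eq_right (by linarith)]; ring

theorem phi_supp {z : ℂ} (h : 2 < ‖z‖) : phi z = 0 := phi_zero (by linarith)

theorem fderiv_phi_zero {z : ℂ} (h : 3 / 4 < ‖z‖) : fderiv ℝ phi z = 0 := by
  have h1 : phi =ᶠ[𝓝 z] fun _ => 0 := by
    have : ∀ᶠ w in 𝓝 z, 3 / 4 < ‖w‖ := continuous_norm.continuousAt.eventually_const_lt h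
    filter_upwards [this] with w hw
    exact phi_zero hw.le
  rw [h1.fderiv_eq, fderiv_fun_const]
  rfl

theorem energy_phi : ∫ z, (fderiv ℝ phi z 1 ^ 2 + fderiv ℝ phi z Complex.I ^ 2) =
    131072 / 33075 := by
  have hX := cont_fd contDiff_phi 1
  have hY := cont_fd contDiff_phi Complex.I
  have hX2 : Continuous fun z => fderiv ℝ phi z 1 ^ 2 := hX.pow 2
  have hY2 : Continuous fun z => fderiv ℝ phi z Complex.I ^ 2 := hY.pow 2
  have hG : Continuous fun z => fderiv ℝ phi z 1 ^ 2 + fderiv ℝ phi z Complex.I ^ 2 := hX2.add hY2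
  rw [int_all hG]
  · rw [show I2 3 (fun z => fderiv ℝ phi z 1 ^ 2 + fderiv ℝ phi z Complex.I ^ 2) =
      I2 3 (fun z => fderiv ℝ phi z 1 ^ 2) + I2 3 (fun z => fderiv ℝ phi z Complex.I ^ 2) from
      I2_add hX2 hY2]
    have e1 : I2 3 (fun z => fderiv ℝ phi z 1 ^ 2) = 512 / 105 * (128 / 315) := by
      unfold I2
      rw [← int_T'2, ← int_T2, ← intervalIntegral.integral_mul_const]
      refine intervalIntegral.integral_congr fun x _ => ?_
      show ∫ y in (-3 : ℝ)..3, fderiv ℝ phi ⟨x, y⟩ 1 ^ 2 = _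
      rw [← intervalIntegral.integral_const_mul]
      refine intervalIntegral.integral_congr fun y _ => ?_
      show fderiv ℝ phi ⟨x, y⟩ 1 ^ 2 = _
      rw [fderiv_phi_one]; ring
    have e2 : I2 3 (fun z => fderiv ℝ phi z Complex.I ^ 2) = 128 / 315 * (512 / 105) := by
      unfold I2
      rw [← int_T'2, ← int_T2, ← intervalIntegral.integral_mul_const]
      refine intervalIntegral.integral_congr fun x _ => ?_
      show ∫ y in (-3 : ℝ)..3, fderiv ℝ phi ⟨x, y⟩ Complex.I ^ 2 = _
      rw [← intervalIntegral.integral_const_mul]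
      refine intervalIntegral.integral_congr fun y _ => ?_
      show fderiv ℝ phi ⟨x, y⟩ Complex.I ^ 2 = _
      rw [fderiv_phi_I]; ring
    rw [e1, e2]; norm_num
  · intro z hz
    rw [fderiv_phi_zero (by linarith)]; simp

theorem phi_lower {z : ℂ} (h : ‖z‖ < 1 / 40) : 98 / 100 ≤ phi z * phi z := by
  have h1 : ‖z‖ ^ 2 = z.re ^ 2 + z.im ^ 2 := by
    rw [Complex.sq_norm, Complex.normSq_apply]; ring
  have h2 : ‖z‖ ^ 2 ≤ 1 / 1600 := by nlinarith [norm_nonneg z]
  have hx : (2 * z.re) ^ 2 ≤ 1 / 400 := by nlinarith [sq_nonneg z.im]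
  have hy : (2 * z.im) ^ 2 ≤ 1 / 400 := by nlinarith [sq_nonneg z.re]
  have hT : ∀ t : ℝ, t ^ 2 ≤ 1 / 400 → (399 / 400) ^ 2 ≤ T t := by
    intro t ht
    unfold T
    rw [max_eq_right (by linarith)]
    exact pow_le_pow_left₀ (by norm_num) (by linarith) 2
  have a1 := hT _ hx
  have a2 := hT _ hy
  have a3 : (399 / 400 : ℝ) ^ 2 * (399 / 400) ^ 2 ≤ phi z :=
    mul_le_mul a1 a2 (by norm_num) (le_trans (by norm_num) a1)
  have a4 : ((399 / 400 : ℝ) ^ 2 * (399 / 400) ^ 2) * ((399 / 400 : ℝ) ^ 2 * (399 / 400) ^ 2) ≤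
      phi z * phi z := mul_le_mul a3 a3 (by norm_num) (le_trans (by norm_num) a3)
  exact le_trans (by norm_num) a4

/-- the cut-off -/
noncomputable def theta (z : ℂ) : ℝ :=
  Real.smoothTransition (((21 / 800) ^ 2 - ‖z‖ ^ 2) / ((21 / 800) ^ 2 - (1 / 40) ^ 2))

theorem contDiff_theta : ContDiff ℝ ∞ theta := by
  unfold theta
  exact Real.smoothTransition.contDiff.comp
    ((contDiff_const.sub (contDiff_norm_sq ℝ)).div_const _)

theorem theta_nonneg (z : ℂ) : 0 ≤ theta z := Real.smoothTransition.nonneg _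
theorem theta_le_one (z : ℂ) : theta z ≤ 1 := Real.smoothTransition.le_one _

theorem theta_zero {z : ℂ} (h : 21 / 800 ≤ ‖z‖) : theta z = 0 := by
  apply Real.smoothTransition.zero_of_nonpos
  apply div_nonpos_of_nonpos_of_nonneg
  · nlinarith
  · norm_num

theorem theta_one {z : ℂ} (h : ‖z‖ ≤ 1 / 40) : theta z = 1 := by
  apply Real.smoothTransition.one_of_one_le
  rw [le_div_iff₀ (by norm_num)]
  nlinarith [norm_nonneg z]

/-- the conformal factor -/
noncomputable def rho (z : ℂ) : ℝ := 1 / 3200000 + theta z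

theorem rho_pos (z : ℂ) : 0 < rho z := by
  unfold rho; have := theta_nonneg z; positivity

theorem contDiff_rho : ContDiff ℝ ∞ rho := contDiff_const.add contDiff_theta

theorem rho_rot (a z : ℂ) (ha : ‖a‖ = 1) : rho (a * z) = rho z := by
  unfold rho theta; rw [norm_mul, ha, one_mul]

/-- the constant -/
noncomputable def CC : ℝ := (36 * (1 / 3200000) + (2 * (21 / 800)) ^ 2 / 6)⁻¹

theorem mass_phi_lower : 98 / 100 * (Real.pi * (1 / 40) ^ 2) ≤ ∫ z, rho z * (phi z * phi z) := by
  have hc : Continuous fun z => rho z * (phi z * phi z) :=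
    contDiff_rho.continuous.mul (contDiff_phi.continuous.mul contDiff_phi.continuous)
  have hint : Integrable fun z => rho z * (phi z * phi z) :=
    integrable_of_supp hc fun z hz => by rw [phi_supp hz]; simp
  have hnn : ∀ z, 0 ≤ rho z * (phi z * phi z) := fun z =>
    mul_nonneg (rho_pos z).le (mul_self_nonneg _)
  have h1 : ∫ z in Metric.ball (0 : ℂ) (1 / 40), rho z * (phi z * phi z) ≤
      ∫ z, rho z * (phi z * phi z) := setIntegral_le_integral hint (ae_of_all _ hnn)
  refine le_trans ?_ h1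
  have hvol : volume.real (Metric.ball (0 : ℂ) (1 / 40)) = Real.pi * (1 / 40) ^ 2 := by
    rw [Measure.real, Complex.volume_ball, ENNReal.toReal_mul, ENNReal.toReal_pow,
      ENNReal.toReal_ofReal (by norm_num)]
    rw [mul_comm]; rfl
  have h2 : ∫ z in Metric.ball (0 : ℂ) (1 / 40), (98 / 100 : ℝ) ≤
      ∫ z in Metric.ball (0 : ℂ) (1 / 40), rho z * (phi z * phi z) := by
    refine setIntegral_mono_on ?_ hint.integrableOn Metric.isOpen_ball.measurableSet ?_
    · exact integrableOn_const (Metric.isBounded_ball.measure_lt_top.ne)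
    · intro z hz
      have hz' : ‖z‖ < 1 / 40 := by simpa using hz
      have e1 := phi_lower hz'
      have e2 : 1 ≤ rho z := by
        unfold rho; rw [theta_one hz'.le]; norm_num
      nlinarith
  rw [setIntegral_const, smul_eq_mul, hvol] at h2
  linarith

theorem phi_test : ∫ z, (fderiv ℝ phi z 1 ^ 2 + fderiv ℝ phi z Complex.I ^ 2) ≤
    CC * ∫ z, rho z * (phi z * phi z) := by
  have h1 := mass_phi_lower
  rw [energy_phi]
  have hC : (0 : ℝ) < CC := by unfold CC; positivity
  refine le_trans ?_ (mul_le_mul_of_nonneg_left h1 hC.le)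
  have hpi := Real.pi_gt_d2
  have h2 : (3.14 : ℝ) ≤ Real.pi := hpi.le
  unfold CC
  rw [inv_mul_eq_div, le_div_iff₀ (by norm_num)]
  nlinarith

end Pool.Agent.H900R3.Dir
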