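import Pool.Agent.H900R3.Dir.Var

open Set Filter Topology MeasureTheory
open scoped ContDiff Interval

namespace Pool.Agent.H900R3.Dir

/-- swapping interval integrals -/
theorem swapII {a b c d : ℝ} (h1 : a ≤ b) (h2 : c ≤ d) {F : ℝ → ℝ → ℝ}
    (hF : Continuous (Function.uncurry F)) :
    ∫ x in a..b, ∫ y in c..d, F x y = ∫ y in c..d, ∫ x in a..b, F x y := by
  simp only [intervalIntegral.integral_of_le h1, intervalIntegral.integral_of_le h2]
  apply integral_integral_swap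
  rw [Measure.prod_restrict]
  have : IntegrableOn (Function.uncurry F) (Icc a b ×ˢ Icc c d) (volume.prod volume) :=
    hF.continuousOn.integrableOn_compact (isCompact_Icc.prod isCompact_Icc)
  exact this.mono_set (prod_mono Ioc_subset_Icc_self Ioc_subset_Icc_self)

theorem cont_mk : Continuous fun p : ℝ × ℝ => (⟨p.1, p.2⟩ : ℂ) :=
  Complex.equivRealProdCLM.symm.continuous

theorem cont_unc {φ : ℂ → ℝ} (hφ : Continuous φ) :
    Continuous (Function.uncurry fun x y : ℝ => φ ⟨x, y⟩) := hφ.comp cont_mk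

theorem cont_unc' {φ : ℂ → ℝ} (hφ : Continuous φ) :
    Continuous (Function.uncurry fun y x : ℝ => φ ⟨x, y⟩) :=
  (hφ.comp cont_mk).comp continuous_swap

theorem cont_x {φ : ℂ → ℝ} (hφ : Continuous φ) (y : ℝ) : Continuous fun x : ℝ => φ ⟨x, y⟩ :=
  (hφ.comp cont_mk).comp (continuous_id.prodMk continuous_const)

theorem cont_y {φ : ℂ → ℝ} (hφ : Continuous φ) (x : ℝ) : Continuous fun y : ℝ => φ ⟨x, y⟩ :=
  (hφ.comp cont_mk).comp (continuous_const.prodMk continuous_id)

theorem cont_inner {φ : ℂ → ℝ} (hφ : Continuous φ) (c d : ℝ) :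
    Continuous fun x : ℝ => ∫ y in c..d, φ ⟨x, y⟩ :=
  intervalIntegral.continuous_parametric_intervalIntegral_of_continuous' (cont_unc hφ) c d

theorem deriv_x {f : ℂ → ℝ} (hf : ContDiff ℝ 1 f) (x y : ℝ) :
    HasDerivAt (fun x : ℝ => f ⟨x, y⟩) (fderiv ℝ f ⟨x, y⟩ 1) x := by
  have h1 : HasDerivAt (fun x : ℝ => (⟨x, y⟩ : ℂ)) 1 x := by
    have h2 : (fun x : ℝ => (⟨x, y⟩ : ℂ)) = fun x : ℝ => (x : ℂ) + y * Complex.I := by
      funext t; exact Complex.mk_eq_add_mul_I t y
    rw [h2]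
    exact (Complex.ofRealCLM.hasDerivAt).add_const _
  exact ((hf.differentiable (by simp)) _).hasFDerivAt.comp_hasDerivAt x h1

theorem deriv_y {f : ℂ → ℝ} (hf : ContDiff ℝ 1 f) (x y : ℝ) :
    HasDerivAt (fun y : ℝ => f ⟨x, y⟩) (fderiv ℝ f ⟨x, y⟩ Complex.I) y := by
  have h1 : HasDerivAt (fun y : ℝ => (⟨x, y⟩ : ℂ)) Complex.I y := by
    have h2 : (fun y : ℝ => (⟨x, y⟩ : ℂ)) = fun y : ℝ => (x : ℂ) + y * Complex.I := by
      funext t; exact Complex.mk_eq_add_mul_I x t
    rw [h2]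
    have h3 := ((Complex.ofRealCLM.hasDerivAt (x := y)).mul_const Complex.I).const_add (x : ℂ)
    simpa using h3
  exact ((hf.differentiable (by simp)) _).hasFDerivAt.comp_hasDerivAt y h1

theorem cont_fd {f : ℂ → ℝ} (hf : ContDiff ℝ 1 f) (w : ℂ) : Continuous fun z => fderiv ℝ f z w :=
  (hf.continuous_fderiv (by simp)).clm_apply continuous_const

theorem ftc_x {f : ℂ → ℝ} (hf : ContDiff ℝ 1 f) (x x' y : ℝ) :
    f ⟨x, y⟩ - f ⟨x', y⟩ = ∫ t in x'..x, fderiv ℝ f ⟨t, y⟩ 1 :=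
  (intervalIntegral.integral_eq_sub_of_hasDerivAt (fun t _ => deriv_x hf t y)
    ((cont_x (cont_fd hf 1) y).intervalIntegrable _ _)).symm

theorem ftc_y {f : ℂ → ℝ} (hf : ContDiff ℝ 1 f) (x y y' : ℝ) :
    f ⟨x, y⟩ - f ⟨x, y'⟩ = ∫ t in y'..y, fderiv ℝ f ⟨x, t⟩ Complex.I :=
  (intervalIntegral.integral_eq_sub_of_hasDerivAt (fun t _ => deriv_y hf x t)
    ((cont_y (cont_fd hf Complex.I) x).intervalIntegrable _ _)).symm

/-- iterated integral on a square -/
noncomputable def I2 (h : ℝ) (φ : ℂ → ℝ) : ℝ := ∫ x in (-h)..h, ∫ y in (-h)..h, φ ⟨x, y⟩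

theorem I2_mono {h : ℝ} (hh : 0 < h) {φ ψ : ℂ → ℝ} (hφ : Continuous φ) (hψ : Continuous ψ)
    (hle : ∀ z, φ z ≤ ψ z) : I2 h φ ≤ I2 h ψ := by
  unfold I2
  refine intervalIntegral.integral_mono_on (by linarith)
    ((cont_inner hφ _ _).intervalIntegrable _ _) ((cont_inner hψ _ _).intervalIntegrable _ _) ?_
  intro x _
  exact intervalIntegral.integral_mono_on (by linarith) ((cont_y hφ _).intervalIntegrable _ _)
    ((cont_y hψ _).intervalIntegrable _ _) fun y _ => hle _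

theorem I2_add {h : ℝ} {φ ψ : ℂ → ℝ} (hφ : Continuous φ) (hψ : Continuous ψ) :
    I2 h (fun z => φ z + ψ z) = I2 h φ + I2 h ψ := by
  unfold I2
  rw [← intervalIntegral.integral_add ((cont_inner hφ _ _).intervalIntegrable _ _)
    ((cont_inner hψ _ _).intervalIntegrable _ _)]
  refine intervalIntegral.integral_congr fun x _ => ?_
  exact intervalIntegral.integral_add ((cont_y hφ _).intervalIntegrable _ _)
    ((cont_y hψ _).intervalIntegrable _ _)

/-- Poincare inequality on a square -/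
theorem poincareQ {f : ℂ → ℝ} (hf : ContDiff ℝ 1 f) {h : ℝ} (hh : 0 < h) (h0 : I2 h f = 0) :
    I2 h (fun z => f z ^ 2) ≤ (2 * h) ^ 2 / 6 *
      I2 h (fun z => fderiv ℝ f z 1 ^ 2 + fderiv ℝ f z Complex.I ^ 2) := by
  have hfc : Continuous f := hf.continuous
  have hX := cont_fd hf 1
  have hY := cont_fd hf Complex.I
  set s := 2 * h with hs
  have hs0 : 0 < s := by positivity
  have hsub : h - (-h) = s := by rw [hs]; ring
  have hlt : -h < h := by linarith
  set A : ℝ → ℝ := fun x => ∫ y in (-h)..h, f ⟨x, y⟩ with hA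
  set A' : ℝ → ℝ := fun x => ∫ y in (-h)..h, fderiv ℝ f ⟨x, y⟩ 1 with hA'
  have hAc : Continuous A := cont_inner hfc _ _
  have hA'c : Continuous A' := cont_inner hX _ _
  -- step 1
  have s1 : ∀ x, s * (∫ y in (-h)..h, f ⟨x, y⟩ ^ 2) - A x ^ 2 ≤
      s ^ 3 / 6 * ∫ y in (-h)..h, fderiv ℝ f ⟨x, y⟩ Complex.I ^ 2 := by
    intro x
    have := var1 hlt (cont_y hfc x) (cont_y hY x) (fun y _ y' _ => ftc_y hf x y y')
    rwa [hsub] at this
  have hf2 : Continuous fun z => f z ^ 2 := by fun_prop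
  have hX2 : Continuous fun z => fderiv ℝ f z 1 ^ 2 := hX.pow 2
  have hY2 : Continuous fun z => fderiv ℝ f z Complex.I ^ 2 := hY.pow 2
  have s2 : s * I2 h (fun z => f z ^ 2) - ∫ x in (-h)..h, A x ^ 2 ≤
      s ^ 3 / 6 * I2 h (fun z => fderiv ℝ f z Complex.I ^ 2) := by
    unfold I2
    rw [← intervalIntegral.integral_const_mul, ← intervalIntegral.integral_const_mul,
      ← intervalIntegral.integral_sub]
    · refine intervalIntegral.integral_mono_on hlt.le ?_ ?_ fun x _ => s1 x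
      · exact (((cont_inner hf2 _ _).const_mul s).sub (hAc.pow 2)).intervalIntegrable _ _
      · exact ((cont_inner hY2 _ _).const_mul _).intervalIntegrable _ _
    · exact ((cont_inner hf2 _ _).const_mul s).intervalIntegrable _ _
    · exact (hAc.pow 2).intervalIntegrable _ _
  -- step 2
  have ftcA : ∀ x x', x' ≤ x → A x - A x' = ∫ t in x'..x, A' t := by
    intro x x' hx
    rw [hA, hA']
    simp only
    rw [← intervalIntegral.integral_sub ((cont_y hfc _).intervalIntegrable _ _)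
      ((cont_y hfc _).intervalIntegrable _ _)]
    rw [swapII hx hlt.le (cont_unc hX)]
    refine intervalIntegral.integral_congr fun y _ => ?_
    exact ftc_x hf x x' y
  have ftcA' : ∀ x ∈ Icc (-h) h, ∀ x' ∈ Icc (-h) h, A x - A x' = ∫ t in x'..x, A' t := by
    intro x _ x' _
    rcases le_total x' x with hx | hx
    · exact ftcA x x' hx
    · rw [intervalIntegral.integral_symm, ← ftcA x' x hx]; ring
  have s3 := var1 hlt hAc hA'c ftcA'
  rw [hsub] at s3
  have hA0 : ∫ t in (-h)..h, A t = 0 := h0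
  rw [hA0] at s3
  have s4 : ∫ t in (-h)..h, A' t ^ 2 ≤ s * I2 h (fun z => fderiv ℝ f z 1 ^ 2) := by
    unfold I2
    rw [← intervalIntegral.integral_const_mul]
    refine intervalIntegral.integral_mono_on hlt.le ((hA'c.pow 2).intervalIntegrable _ _)
      (((cont_inner hX2 _ _).const_mul _).intervalIntegrable _ _) fun x _ => ?_
    have := cs1 hlt.le (cont_y hX x)
    rwa [hsub] at this
  rw [I2_add hX2 hY2]
  set a := I2 h (fun z => f z ^ 2)
  set p := I2 h (fun z => fderiv ℝ f z 1 ^ 2)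
  set q := I2 h (fun z => fderiv ℝ f z Complex.I ^ 2)
  set b := ∫ x in (-h)..h, A x ^ 2
  have s5 : s * b ≤ s ^ 3 / 6 * (s * p) := by
    have h6 : (0 : ℝ) ≤ s ^ 3 / 6 := by positivity
    have := mul_le_mul_of_nonneg_left s4 h6
    nlinarith
  have s6 : b ≤ s ^ 3 / 6 * p := by
    have : s * b ≤ s * (s ^ 3 / 6 * p) := by linarith
    exact le_of_mul_le_mul_left this hs0
  have s7 : s * a ≤ s * (s ^ 2 / 6 * (p + q)) := by
    have e : s * (s ^ 2 / 6 * (p + q)) = s ^ 3 / 6 * p + s ^ 3 / 6 * q := by ring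
    rw [e]; linarith
  exact le_of_mul_le_mul_left s7 hs0

/-- Poincare inequality with zero boundary values -/
theorem poincareG {f : ℂ → ℝ} (hf : ContDiff ℝ 1 f) (h0 : ∀ x : ℝ, f ⟨x, -3⟩ = 0) :
    I2 3 (fun z => f z ^ 2) ≤ 36 *
      I2 3 (fun z => fderiv ℝ f z 1 ^ 2 + fderiv ℝ f z Complex.I ^ 2) := by
  have hfc : Continuous f := hf.continuous
  have hX := cont_fd hf 1
  have hY := cont_fd hf Complex.I
  have hf2 : Continuous fun z => f z ^ 2 := by fun_prop
  have hX2 : Continuous fun z => fderiv ℝ f z 1 ^ 2 := hX.pow 2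
  have hY2 : Continuous fun z => fderiv ℝ f z Complex.I ^ 2 := hY.pow 2
  have h1 : I2 3 (fun z => f z ^ 2) ≤ 36 * I2 3 (fun z => fderiv ℝ f z Complex.I ^ 2) := by
    unfold I2
    rw [← intervalIntegral.integral_const_mul]
    refine intervalIntegral.integral_mono_on (by norm_num) ((cont_inner hf2 _ _).intervalIntegrable _ _)
      (((cont_inner hY2 _ _).const_mul _).intervalIntegrable _ _) fun x _ => ?_
    set V := ∫ y in (-3 : ℝ)..3, fderiv ℝ f ⟨x, y⟩ Complex.I ^ 2 with hV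
    have hb : ∀ y ∈ Icc (-3 : ℝ) 3, f ⟨x, y⟩ ^ 2 ≤ 6 * V := by
      intro y hy
      have e1 := ftc_y hf x y (-3)
      rw [h0 x, sub_zero] at e1
      rw [e1]
      refine (cs1 hy.1 (cont_y hY x)).trans ?_
      have e2 : ∫ t in (-3 : ℝ)..y, fderiv ℝ f ⟨x, t⟩ Complex.I ^ 2 ≤ V := by
        refine intervalIntegral.integral_mono_interval le_rfl hy.1 hy.2 ?_ ?_
        · exact ae_of_all _ fun t => sq_nonneg _
        · exact (cont_y hY2 x).intervalIntegrable _ _
      have e3 : 0 ≤ ∫ t in (-3 : ℝ)..y, fderiv ℝ f ⟨x, t⟩ Complex.I ^ 2 :=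
        intervalIntegral.integral_nonneg hy.1 fun t _ => sq_nonneg _
      have e4 : y - -3 ≤ 6 := by linarith [hy.2]
      nlinarith
    calc ∫ y in (-3 : ℝ)..3, f ⟨x, y⟩ ^ 2 ≤ ∫ y in (-3 : ℝ)..3, 6 * V :=
          intervalIntegral.integral_mono_on (by norm_num) ((cont_y hf2 x).intervalIntegrable _ _)
            (continuous_const.intervalIntegrable _ _) hb
      _ = 36 * V := by
        rw [intervalIntegral.integral_const]; simp; ring
  refine h1.trans (mul_le_mul_of_nonneg_left ?_ (by norm_num))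
  exact I2_mono (by norm_num) hY2 (hX2.add hY2) fun z => by
    show _ ≤ fderiv ℝ f z 1 ^ 2 + fderiv ℝ f z Complex.I ^ 2
    nlinarith [sq_nonneg (fderiv ℝ f z 1)]

/-- the half open square -/
def Qs (h : ℝ) : Set ℂ := {z | z.re ∈ Ioc (-h) h ∧ z.im ∈ Ioc (-h) h}

theorem meas_Qs (h : ℝ) : MeasurableSet (Qs h) :=
  (Complex.measurable_re measurableSet_Ioc).inter (Complex.measurable_im measurableSet_Ioc)

theorem int_Qs {h : ℝ} (hh : 0 < h) {φ : ℂ → ℝ} (hφ : Continuous φ) :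
    ∫ z in Qs h, φ z = I2 h φ := by
  have h1 : Qs h = Complex.measurableEquivRealProd ⁻¹' (Ioc (-h) h ×ˢ Ioc (-h) h) := by
    ext z; rfl
  have h2 := Complex.volume_preserving_equiv_real_prod.setIntegral_preimage_emb
    Complex.measurableEquivRealProd.measurableEmbedding
    (fun p : ℝ × ℝ => φ ⟨p.1, p.2⟩) (Ioc (-h) h ×ˢ Ioc (-h) h)
  rw [h1]
  have h3 : ∀ z : ℂ, φ ⟨(Complex.measurableEquivRealProd z).1, (Complex.measurableEquivRealProd z).2⟩
      = φ z := fun z => rfl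
  simp only [h3] at h2
  rw [h2, Measure.volume_eq_prod, setIntegral_prod]
  · unfold I2
    rw [intervalIntegral.integral_of_le (by linarith)]
    refine setIntegral_congr_fun measurableSet_Ioc fun x _ => ?_
    exact (intervalIntegral.integral_of_le (by linarith)).symm
  · have : IntegrableOn (fun p : ℝ × ℝ => φ ⟨p.1, p.2⟩) (Icc (-h) h ×ˢ Icc (-h) h)
        (volume.prod volume) :=
      (hφ.comp cont_mk).continuousOn.integrableOn_compact (isCompact_Icc.prod isCompact_Icc)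
    exact this.mono_set (prod_mono Ioc_subset_Icc_self Ioc_subset_Icc_self)

theorem integrable_of_supp {φ : ℂ → ℝ} (hφ : Continuous φ) (h0 : ∀ z, 2 < ‖z‖ → φ z = 0) :
    Integrable φ := by
  refine hφ.integrable_of_hasCompactSupport ?_
  refine HasCompactSupport.intro (isCompact_closedBall (0 : ℂ) 2) fun z hz => h0 z ?_
  simpa using hz

theorem int_all {φ : ℂ → ℝ} (hφ : Continuous φ) (h0 : ∀ z, 2 < ‖z‖ → φ z = 0) :
    ∫ z, φ z = I2 3 φ := by
  rw [← int_Qs (by norm_num) hφ]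
  symm
  apply setIntegral_eq_integral_of_forall_compl_eq_zero
  intro z hz
  apply h0
  by_contra hcon
  push Not at hcon
  apply hz
  have h1 := (Complex.abs_re_le_norm z).trans hcon
  have h2 := (Complex.abs_im_le_norm z).trans hcon
  rw [abs_le] at h1 h2
  refine ⟨⟨by linarith [h1.1], by linarith [h1.2]⟩, ⟨by linarith [h2.1], by linarith [h2.2]⟩⟩

/-- the key inequality -/
theorem P1_plane {f : ℂ → ℝ} (hf : ContDiff ℝ 1 f) (hs : ∀ z, 2 < ‖z‖ → f z = 0) {h ε : ℝ}
    (hh : 0 < h) (hε : 0 ≤ ε) {θ : ℂ → ℝ} (hθc : Continuous θ) (hθ0 : ∀ z, 0 ≤ θ z)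
    (hθ1 : ∀ z, θ z ≤ 1) (hθs : ∀ z, h ≤ ‖z‖ → θ z = 0) (h0 : ∫ z in Qs h, f z = 0) :
    ∫ z, (ε + θ z) * (f z * f z) ≤ (36 * ε + (2 * h) ^ 2 / 6) *
      ∫ z, (fderiv ℝ f z 1 ^ 2 + fderiv ℝ f z Complex.I ^ 2) := by
  have hfc : Continuous f := hf.continuous
  have hX := cont_fd hf 1
  have hY := cont_fd hf Complex.I
  have hf2 : Continuous fun z => f z ^ 2 := by fun_prop
  have hG : Continuous fun z => fderiv ℝ f z 1 ^ 2 + fderiv ℝ f z Complex.I ^ 2 :=
    (hX.pow 2).add (hY.pow 2)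
  have hGs : ∀ z, 2 < ‖z‖ → fderiv ℝ f z 1 ^ 2 + fderiv ℝ f z Complex.I ^ 2 = 0 := by
    intro z hz
    have h1 : f =ᶠ[𝓝 z] fun _ => 0 := by
      have : ∀ᶠ w in 𝓝 z, 2 < ‖w‖ := continuous_norm.continuousAt.eventually_const_lt hz
      filter_upwards [this] with w hw
      exact hs w hw
    rw [h1.fderiv_eq, fderiv_fun_const]
    simp
  set G := ∫ z, (fderiv ℝ f z 1 ^ 2 + fderiv ℝ f z Complex.I ^ 2) with hGd
  have hf2s : ∀ z, 2 < ‖z‖ → f z ^ 2 = 0 := fun z hz => by rw [hs z hz]; simp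
  have i1 : ∫ z, f z ^ 2 ≤ 36 * G := by
    rw [int_all hf2 hf2s, hGd, int_all hG hGs]
    refine poincareG hf fun x => hs _ ?_
    have := Complex.abs_im_le_norm (⟨x, -3⟩ : ℂ)
    simp only [abs_neg] at this
    have h3 : |(3 : ℝ)| = 3 := by norm_num
    rw [h3] at this
    linarith
  have i2 : ∫ z in Qs h, f z ^ 2 ≤ (2 * h) ^ 2 / 6 * G := by
    rw [int_Qs hh hf2]
    rw [int_Qs hh hfc] at h0
    refine (poincareQ hf hh h0).trans (mul_le_mul_of_nonneg_left ?_ (by positivity))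
    rw [← int_Qs hh hG, hGd]
    exact setIntegral_le_integral (integrable_of_supp hG hGs) (ae_of_all _ fun z => by positivity)
  have j1 : Integrable fun z => f z ^ 2 := integrable_of_supp hf2 hf2s
  have hθf : Continuous fun z => θ z * f z ^ 2 := hθc.mul hf2
  have j2 : Integrable fun z => θ z * f z ^ 2 :=
    integrable_of_supp hθf fun z hz => by rw [hf2s z hz, mul_zero]
  have i3 : ∫ z, θ z * f z ^ 2 ≤ ∫ z in Qs h, f z ^ 2 := by
    rw [← integral_indicator (meas_Qs h)]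
    refine integral_mono j2 (j1.indicator (meas_Qs h)) fun z => ?_
    by_cases hz : z ∈ Qs h
    · rw [indicator_of_mem hz]
      exact mul_le_of_le_one_left (sq_nonneg _) (hθ1 z)
    · rw [indicator_of_notMem hz]
      have : h ≤ ‖z‖ := by
        by_contra hcon
        push Not at hcon
        apply hz
        have h1 := (Complex.abs_re_le_norm z).trans_lt hcon
        have h2 := (Complex.abs_im_le_norm z).trans_lt hcon
        rw [abs_lt] at h1 h2
        exact ⟨⟨h1.1, h1.2.le⟩, ⟨h2.1, h2.2.le⟩⟩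
      show θ z * f z ^ 2 ≤ 0
      rw [hθs z this, zero_mul]
  have e1 : ∫ z, (ε + θ z) * (f z * f z) = ε * (∫ z, f z ^ 2) + ∫ z, θ z * f z ^ 2 := by
    rw [← integral_const_mul, ← integral_add (j1.const_mul ε) j2]
    congr 1; funext z; ring
  rw [e1, add_mul]
  have := mul_le_mul_of_nonneg_left i1 hε
  linarith

end Pool.Agent.H900R3.Dir
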