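import Pool.Agent.H900R3.Dir.Form

open Set Filter Topology MeasureTheory Complex
open scoped ContDiff

namespace Pool.Agent.H900R3.Dir

variable {m : ℕ} [hm : Fact m.Prime] {r : ℝ}


/-- characters of the sign group, as integers -/
noncomputable def chi (S : Finset (ZMod m)) (e : A m) : ℤˣ := ∏ j ∈ S, e.1 j

/-- characters with real values -/
noncomputable def ch (S : Finset (ZMod m)) (e : A m) : ℝ := ((chi S e : ℤˣ) : ℤ)

theorem ch_mul (S : Finset (ZMod m)) (a b : A m) : ch S (a * b) = ch S a * ch S b := by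
  unfold ch chi
  have : (∏ j ∈ S, (a * b).1 j) = (∏ j ∈ S, a.1 j) * ∏ j ∈ S, b.1 j := by
    rw [← Finset.prod_mul_distrib]; rfl
  rw [this]; push_cast; ring

theorem ch_sq (S : Finset (ZMod m)) (a : A m) : ch S a * ch S a = 1 := by
  unfold ch
  rcases Int.units_eq_one_or (chi S a) with h | h <;> simp [h]

theorem ch_inv (S : Finset (ZMod m)) (a : A m) : ch S a⁻¹ = ch S a := by
  have h1 : ch S a⁻¹ * ch S a = 1 := by
    rw [← ch_mul, inv_mul_cancel]
    simp [ch, chi]
  have h2 := ch_sq S a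
  have h3 : ch S a ≠ 0 := fun h => by rw [h] at h2; simp at h2
  exact mul_right_cancel₀ h3 (h1.trans h2.symm)

theorem ch_empty (a : A m) : ch ∅ a = 1 := by simp [ch, chi]

theorem ch_univ (a : A m) : ch Finset.univ a = 1 := by
  have := mem_A.1 a.2
  simp [ch, chi, this]

theorem sum_ch (a : A m) : ∑ S : Finset (ZMod m), ch S a = if a = 1 then (2 : ℝ) ^ m else 0 := by
  have h1 : ∑ S : Finset (ZMod m), ch S a = ∏ j : ZMod m, (1 + (((a.1 j : ℤˣ) : ℤ) : ℝ)) := by
    rw [Finset.prod_one_add]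
    rw [Finset.powerset_univ]
    refine Finset.sum_congr rfl fun S _ => ?_
    unfold ch chi
    push_cast
    rfl
  rw [h1]
  split_ifs with h
  · subst h
    have : ∀ j : ZMod m, (1 : ℝ) + ((((1 : A m).1 j : ℤˣ) : ℤ) : ℝ) = 2 := by
      intro j
      have : (1 : A m).1 j = 1 := rfl
      rw [this]; norm_num
    simp only [this]
    rw [Finset.prod_const, Finset.card_univ, ZMod.card]
  · have : ∃ j, a.1 j ≠ 1 := by
      by_contra h2
      push Not at h2
      exact h (Subtype.ext (funext h2))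
    obtain ⟨j, hj⟩ := this
    refine Finset.prod_eq_zero (Finset.mem_univ j) ?_
    rcases Int.units_eq_one_or (a.1 j) with h3 | h3
    · exact absurd h3 hj
    · rw [h3]; norm_num

/-- abbreviation for the test space -/
noncomputable abbrev TW (m : ℕ) [Fact m.Prime] (r : ℝ) := test (hp (m := m)) (KK m r)

theorem Ta_Ta (a b : A m) (u : TW m r) : Ta a (Ta b u) = Ta (b * a) u := by
  apply Subtype.ext; funext x
  show u.1 (act b (act a x)) = u.1 (act (b * a) x)
  rw [act_mul]

theorem Ta_one (u : TW m r) : Ta 1 u = u := by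
  apply Subtype.ext; funext x
  show u.1 (act 1 x) = u.1 x
  rw [act_one]

/-- projection to a sector -/
noncomputable def Q (S : Finset (ZMod m)) : TW m r →ₗ[ℝ] TW m r :=
  ((Fintype.card (A m) : ℝ)⁻¹) • ∑ e : A m, ch S e • Ta e

theorem Q_apply (S : Finset (ZMod m)) (u : TW m r) :
    Q S u = ((Fintype.card (A m) : ℝ)⁻¹) • ∑ e : A m, ch S e • Ta e u := by
  simp [Q, LinearMap.sum_apply]

theorem card_ne : (Fintype.card (A m) : ℝ) ≠ 0 := by
  have : 0 < Fintype.card (A m) := Fintype.card_pos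
  positivity

theorem Ta_Q (S : Finset (ZMod m)) (u : TW m r) (a : A m) : Ta a (Q S u) = ch S a • Q S u := by
  rw [Q_apply, map_smul, map_sum, smul_comm]
  congr 1
  rw [Finset.smul_sum]
  refine Fintype.sum_equiv (Equiv.mulRight a) _ _ fun e => ?_
  rw [map_smul, Ta_Ta, smul_smul, Equiv.coe_mulRight, ch_mul]
  congr 1
  rw [mul_comm (ch S e), ← mul_assoc, ch_sq, one_mul]

theorem Q_Q (S : Finset (ZMod m)) (u : TW m r) : Q S (Q S u) = Q S u := by
  rw [Q_apply S (Q S u)]
  simp only [Ta_Q, smul_smul, ch_sq, one_smul]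
  rw [Finset.sum_const, Finset.card_univ, ← Nat.cast_smul_eq_nsmul ℝ, smul_smul,
    inv_mul_cancel₀ card_ne, one_smul]

theorem sum_Q (u : TW m r) : ∑ S : Finset (ZMod m), Q S u =
    ((Fintype.card (A m) : ℝ)⁻¹ * 2 ^ m) • u := by
  simp only [Q_apply]
  rw [← Finset.smul_sum, Finset.sum_comm, mul_smul]
  congr 1
  simp only [← Finset.sum_smul, sum_ch]
  rw [Finset.sum_eq_single 1]
  · rw [if_pos rfl, Ta_one]
  · intro b _ hb
    rw [if_neg hb, zero_smul]
  · simp

theorem Q_adj (E : LinearMap.BilinForm ℝ (TW m r)) (hE : ∀ u w (e : A m), E (Ta e u) (Ta e w) = E u w)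
    (S : Finset (ZMod m)) (u w : TW m r) : E (Q S u) w = E u (Q S w) := by
  rw [Q_apply, Q_apply, map_smul, map_smul, LinearMap.smul_apply, map_sum, map_sum,
    LinearMap.sum_apply]
  congr 1
  refine Fintype.sum_equiv (Equiv.inv (A m)) _ _ fun e => ?_
  rw [map_smul, map_smul, LinearMap.smul_apply, Equiv.inv_apply, ch_inv]
  congr 1
  rw [← hE u (Ta e⁻¹ w) e, Ta_Ta, inv_mul_cancel, Ta_one]

theorem Q_univ (u : TW m r) : Q Finset.univ u = Q ∅ u := by
  rw [Q_apply, Q_apply]
  simp only [ch_empty, ch_univ]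

/-- sector property -/
def Sec (S : Finset (ZMod m)) (f : TW m r) : Prop := ∀ e, Ta e f = ch S e • f

theorem sec_Q (S : Finset (ZMod m)) (u : TW m r) : Sec S (Q S u) := fun e => Ta_Q S u e

/-- choice of a good sector -/
theorem exists_sector (D B : LinearMap.BilinForm ℝ (TW m r))
    (hD : ∀ u w (e : A m), D (Ta e u) (Ta e w) = D u w)
    (hB : ∀ u w (e : A m), B (Ta e u) (Ta e w) = B u w)
    (hBp : ∀ w, w ≠ 0 → 0 < B w w) (w : TW m r) (hw0 : Q ∅ w = 0) (hw : w ≠ 0) :
    ∃ (S : Finset (ZMod m)) (f : TW m r), S ≠ ∅ ∧ S ≠ Finset.univ ∧ Sec S f ∧ f ≠ 0 ∧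
      D f f / B f f ≤ D w w / B w w := by
  set q := D w w / B w w with hq
  have hBw := hBp w hw
  have hc : (0 : ℝ) < (Fintype.card (A m) : ℝ)⁻¹ * 2 ^ m := by
    have : 0 < Fintype.card (A m) := Fintype.card_pos
    positivity
  have key : ∀ E : LinearMap.BilinForm ℝ (TW m r),
      (∀ u w (e : A m), E (Ta e u) (Ta e w) = E u w) →
      ∑ S : Finset (ZMod m), E (Q S w) (Q S w) = ((Fintype.card (A m) : ℝ)⁻¹ * 2 ^ m) * E w w := by
    intro E hE
    have h1 : ∀ S : Finset (ZMod m), E (Q S w) (Q S w) = E (Q S w) w := by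
      intro S
      rw [← Q_adj E hE S (Q S w) w, Q_Q]
    simp only [h1]
    rw [← LinearMap.sum_apply, ← map_sum, sum_Q, map_smul, LinearMap.smul_apply, smul_eq_mul]
  have hsum : ∑ S : Finset (ZMod m), (D (Q S w) (Q S w) - q * B (Q S w) (Q S w)) = 0 := by
    rw [Finset.sum_sub_distrib, ← Finset.mul_sum, key D hD, key B hB, hq]
    field_simp
    ring
  have hex : ∃ S : Finset (ZMod m), Q S w ≠ 0 ∧ D (Q S w) (Q S w) - q * B (Q S w) (Q S w) ≤ 0 := by
    by_contra hcon
    push Not at hcon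
    have hall : ∀ S : Finset (ZMod m), 0 ≤ D (Q S w) (Q S w) - q * B (Q S w) (Q S w) := by
      intro S
      by_cases h0 : Q S w = 0
      · rw [h0]; simp
      · exact (hcon S h0).le
    have hz := (Finset.sum_eq_zero_iff_of_nonneg (fun S _ => hall S)).1 hsum
    have hz2 : ∀ S : Finset (ZMod m), Q S w = 0 := by
      intro S
      by_contra h0
      have := hcon S h0
      have h3 := hz S (Finset.mem_univ S)
      linarith
    have h4 := sum_Q w
    simp only [hz2, Finset.sum_const_zero] at h4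
    rcases smul_eq_zero.1 h4.symm with h | h
    · exact hc.ne' h
    · exact hw h
  obtain ⟨S, hS0, hS⟩ := hex
  refine ⟨S, Q S w, ?_, ?_, sec_Q S w, hS0, ?_⟩
  · rintro rfl; exact hS0 hw0
  · rintro rfl; exact hS0 (by rw [Q_univ]; exact hw0)
  · rw [div_le_iff₀ (hBp _ hS0)]; linarith

/-- orthogonality of different sectors -/
theorem sec_orth (E : LinearMap.BilinForm ℝ (TW m r))
    (hE : ∀ u w (e : A m), E (Ta e u) (Ta e w) = E u w) {S T : Finset (ZMod m)} {f g : TW m r}
    (hf : Sec S f) (hg : Sec T g) (h1 : S ≠ T) (h2 : S ≠ Tᶜ) : E f g = 0 := by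
  obtain ⟨a, ha⟩ : ∃ a, ¬ (a ∈ S ↔ a ∈ T) := by
    by_contra h; push Not at h; exact h1 (Finset.ext h)
  obtain ⟨b, hb⟩ : ∃ b, (b ∈ S ↔ b ∈ T) := by
    by_contra h; push Not at h
    apply h2
    ext j
    rw [Finset.mem_compl]
    have := h j
    tauto
  have hab : a ≠ b := by rintro rfl; exact ha hb
  set e0 : ZMod m → ℤˣ := fun j => (if j = a then -1 else 1) * (if j = b then -1 else 1) with he0
  have hprod : ∀ U : Finset (ZMod m), ∏ j ∈ U, e0 j =
      (if a ∈ U then -1 else 1) * (if b ∈ U then -1 else 1) := by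
    intro U
    rw [he0, Finset.prod_mul_distrib, Finset.prod_ite_eq', Finset.prod_ite_eq']
  set e : A m := ⟨e0, mem_A.2 (by rw [hprod]; simp)⟩ with he
  have hST : ch S e * ch T e = -1 := by
    unfold ch chi
    rw [he]
    simp only
    rw [hprod, hprod]
    by_cases q1 : a ∈ S <;> by_cases q2 : a ∈ T <;> by_cases q3 : b ∈ S <;> by_cases q4 : b ∈ T <;>
      simp only [q1, q2, q3, q4] at ha hb ⊢ <;> simp at ha hb ⊢
  have h3 := hE f g e
  rw [hf e, hg e, map_smul, map_smul, LinearMap.smul_apply, smul_eq_mul, smul_eq_mul] at h3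
  have h4 : ch T e * (ch S e * E f g) = (ch S e * ch T e) * E f g := by ring
  rw [h4, hST] at h3
  linarith

/-- shift of a set -/
noncomputable def shS (S : Finset (ZMod m)) (k : ZMod m) : Finset (ZMod m) :=
  S.map (Equiv.subRight k).toEmbedding

theorem mem_shS (S : Finset (ZMod m)) (k j : ZMod m) : j ∈ shS S k ↔ j + k ∈ S := by
  rw [shS, Finset.mem_map_equiv]
  simp [Equiv.subRight]

theorem card_shS (S : Finset (ZMod m)) (k : ZMod m) : (shS S k).card = S.card := by
  rw [shS, Finset.card_map]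

theorem sec_rot {S : Finset (ZMod m)} {f : TW m r} (hf : Sec S f) : Sec (shS S 1) (Tr f) := by
  intro e
  have h1 : Ta e (Tr f) = Tr (Ta (sh e) f) := by
    apply Subtype.ext; funext x
    show f.1 (rot (act e x)) = f.1 (act (sh e) (rot x))
    rw [rot_act]
  rw [h1, hf (sh e), map_smul]
  congr 1
  unfold ch chi shS
  rw [Finset.prod_map]
  rfl

theorem shS_add (S : Finset (ZMod m)) (a b : ZMod m) : shS (shS S a) b = shS S (b + a) := by
  ext j; simp only [mem_shS]; rw [add_assoc]

theorem sec_iter {S : Finset (ZMod m)} {f : TW m r} (hf : Sec S f) (n : ℕ) :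
    Sec (shS S (n : ZMod m)) ((Tr)^[n] f) := by
  induction n with
  | zero =>
    have : shS S ((0 : ℕ) : ZMod m) = S := by ext j; simp [mem_shS]
    rw [this]; exact hf
  | succ n ih =>
    rw [Function.iterate_succ_apply']
    have := sec_rot ih
    rw [shS_add] at this
    have h2 : (1 : ZMod m) + (n : ZMod m) = ((n + 1 : ℕ) : ZMod m) := by push_cast; ring
    rwa [h2] at this

theorem shS_inj {S : Finset (ZMod m)} (h1 : S ≠ ∅) (h2 : S ≠ Finset.univ) {a b : ZMod m}
    (h : shS S a = shS S b) : a = b := by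
  by_contra hab
  have hd : a - b ≠ 0 := sub_ne_zero.2 hab
  have hinv : ∀ j, j ∈ S → j + (a - b) ∈ S := by
    intro j hj
    have h3 : j - b ∈ shS S b := by rw [mem_shS, sub_add_cancel]; exact hj
    rw [← h, mem_shS] at h3
    have h4 : j - b + a = j + (a - b) := by ring
    rwa [h4] at h3
  have hinv2 : ∀ n : ℕ, ∀ j, j ∈ S → j + n * (a - b) ∈ S := by
    intro n
    induction n with
    | zero => intro j hj; simpa using hj
    | succ n ih =>
      intro j hj
      have := hinv _ (ih j hj)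
      have h5 : j + (n : ZMod m) * (a - b) + (a - b) = j + ((n + 1 : ℕ) : ZMod m) * (a - b) := by
        push_cast; ring
      rwa [h5] at this
  obtain ⟨j, hj⟩ := Finset.nonempty_iff_ne_empty.2 h1
  apply h2
  ext i
  simp only [Finset.mem_univ, iff_true]
  have h6 := hinv2 ((i - j) / (a - b)).val j hj
  rw [ZMod.natCast_zmod_val, div_mul_cancel₀ _ hd, add_sub_cancel] at h6
  exact h6

theorem odd_m (h2 : m ≠ 2) : m % 2 = 1 := hm.out.eq_two_or_odd.resolve_left h2

theorem iter_orth (E : LinearMap.BilinForm ℝ (TW m r)) (h2m : m ≠ 2)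
    (hE : ∀ u w (e : A m), E (Ta e u) (Ta e w) = E u w) {S : Finset (ZMod m)} {f : TW m r}
    (hf : Sec S f) (h1 : S ≠ ∅) (h2 : S ≠ Finset.univ) (i j : Fin m) (hij : i ≠ j) :
    E ((Tr)^[i.1] f) ((Tr)^[j.1] f) = 0 := by
  refine sec_orth E hE (sec_iter hf i.1) (sec_iter hf j.1) ?_ ?_
  · intro h
    have h3 := shS_inj h1 h2 h
    rw [ZMod.natCast_eq_natCast_iff'] at h3
    rw [Nat.mod_eq_of_lt i.2, Nat.mod_eq_of_lt j.2] at h3
    exact hij (Fin.ext h3)
  · intro h
    have h3 := congrArg Finset.card h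
    rw [Finset.card_compl, card_shS, card_shS, ZMod.card] at h3
    have h4 : S.card ≤ m := by
      have := Finset.card_le_univ S
      rwa [ZMod.card] at this
    have h5 := odd_m h2m
    omega

theorem iter_inv (E : LinearMap.BilinForm ℝ (TW m r))
    (hE : ∀ u w, E (Tr u) (Tr w) = E u w) (f : TW m r) (n : ℕ) :
    E ((Tr)^[n] f) ((Tr)^[n] f) = E f f := by
  induction n with
  | zero => rfl
  | succ n ih => rw [Function.iterate_succ_apply', hE, ih]

end Pool.Agent.H900R3.Dir
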