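import Mathlib

open Set Filter Topology MeasureTheory
open scoped ContDiff Interval

namespace Pool.Agent.H900R3.Dir

/-- Cauchy-Schwarz on an interval -/
theorem cs1 {a b : ℝ} (hab : a ≤ b) {G : ℝ → ℝ} (hG : Continuous G) :
    (∫ t in a..b, G t) ^ 2 ≤ (b - a) * ∫ t in a..b, G t ^ 2 := by
  rcases hab.eq_or_lt with h | h
  · subst h; simp
  · set c := (∫ t in a..b, G t) / (b - a) with hc
    have hba : 0 < b - a := by linarith
    have h0 : 0 ≤ ∫ t in a..b, (G t - c) ^ 2 :=
      intervalIntegral.integral_nonneg hab fun t _ => sq_nonneg _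
    have h1 : ∫ t in a..b, (G t - c) ^ 2 = (∫ t in a..b, G t ^ 2) - 2 * c * (∫ t in a..b, G t) +
        c ^ 2 * (b - a) := by
      have e1 : ∀ t, (G t - c) ^ 2 = (G t ^ 2 - 2 * c * G t) + c ^ 2 := fun t => by ring
      simp only [e1]
      rw [intervalIntegral.integral_add, intervalIntegral.integral_sub,
        intervalIntegral.integral_const_mul, intervalIntegral.integral_const]
      · simp; ring
      all_goals exact Continuous.intervalIntegrable (by fun_prop) _ _
    rw [h1] at h0
    have h2 : (∫ t in a..b, G t) = c * (b - a) := by rw [hc]; field_simp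
    rw [h2] at h0 ⊢
    nlinarith

theorem abs_int {a b x : ℝ} (hx : x ∈ Icc a b) :
    ∫ t in a..b, |x - t| = ((x - a) ^ 2 + (b - x) ^ 2) / 2 := by
  have h1 : ∫ t in a..x, |x - t| = (x - a) ^ 2 / 2 := by
    have : ∫ t in a..x, |x - t| = ∫ t in a..x, (x - t) := by
      refine intervalIntegral.integral_congr fun t ht => ?_
      rw [uIcc_of_le hx.1] at ht
      show |x - t| = x - t
      exact abs_of_nonneg (by linarith [ht.2])
    rw [this, intervalIntegral.integral_sub (Continuous.intervalIntegrable (by fun_prop) _ _)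
      (Continuous.intervalIntegrable (by fun_prop) _ _), integral_id,
      intervalIntegral.integral_const]
    simp only [smul_eq_mul]
    ring
  have h2 : ∫ t in x..b, |x - t| = (b - x) ^ 2 / 2 := by
    have : ∫ t in x..b, |x - t| = ∫ t in x..b, (t - x) := by
      refine intervalIntegral.integral_congr fun t ht => ?_
      rw [uIcc_of_le hx.2] at ht
      show |x - t| = t - x
      rw [abs_of_nonpos (by linarith [ht.1])]; ring
    rw [this, intervalIntegral.integral_sub (Continuous.intervalIntegrable (by fun_prop) _ _)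
      (Continuous.intervalIntegrable (by fun_prop) _ _), integral_id,
      intervalIntegral.integral_const]
    simp only [smul_eq_mul]
    ring
  have hc : Continuous fun t : ℝ => |x - t| := by fun_prop
  rw [← intervalIntegral.integral_add_adjacent_intervals (hc.intervalIntegrable a x)
    (hc.intervalIntegrable x b), h1, h2]
  ring

/-- variance inequality in dimension one -/
theorem var1 {a b : ℝ} (hab : a < b) {g G : ℝ → ℝ} (hg : Continuous g) (hG : Continuous G)
    (h : ∀ x ∈ Icc a b, ∀ y ∈ Icc a b, g x - g y = ∫ t in y..x, G t) :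
    (b - a) * (∫ t in a..b, g t ^ 2) - (∫ t in a..b, g t) ^ 2 ≤
      (b - a) ^ 3 / 6 * ∫ t in a..b, G t ^ 2 := by
  set V := ∫ t in a..b, G t ^ 2 with hV
  have hab' := hab.le
  have hVn : 0 ≤ V := intervalIntegral.integral_nonneg hab' fun t _ => sq_nonneg _
  -- pointwise bound
  have h1 : ∀ x ∈ Icc a b, ∀ y ∈ Icc a b, (g x - g y) ^ 2 ≤ |x - y| * V := by
    have key : ∀ x ∈ Icc a b, ∀ y ∈ Icc a b, y ≤ x → (g x - g y) ^ 2 ≤ (x - y) * V := by
      intro x hx y hy hyx
      rw [h x hx y hy]
      refine (cs1 hyx hG).trans (mul_le_mul_of_nonneg_left ?_ (by linarith))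
      rw [hV]
      refine intervalIntegral.integral_mono_interval hy.1 hyx hx.2 ?_ ?_
      · exact ae_of_all _ fun t => sq_nonneg _
      · exact Continuous.intervalIntegrable (by fun_prop) _ _
    intro x hx y hy
    rcases le_total y x with hyx | hyx
    · rw [abs_of_nonneg (by linarith)]; exact key x hx y hy hyx
    · rw [abs_of_nonpos (by linarith)]
      have := key y hy x hx hyx
      have e : (g x - g y) ^ 2 = (g y - g x) ^ 2 := by ring
      rw [e]; linarith
  -- inner integral
  have h2 : ∀ x ∈ Icc a b, (b - a) * g x ^ 2 - 2 * g x * (∫ t in a..b, g t) +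
      (∫ t in a..b, g t ^ 2) ≤ ((x - a) ^ 2 + (b - x) ^ 2) / 2 * V := by
    intro x hx
    have e1 : ∫ y in a..b, (g x - g y) ^ 2 = (b - a) * g x ^ 2 - 2 * g x * (∫ t in a..b, g t) +
      (∫ t in a..b, g t ^ 2) := by
      have e1 : ∀ y, (g x - g y) ^ 2 = (g x ^ 2 - 2 * g x * g y) + g y ^ 2 := fun t => by ring
      simp only [e1]
      rw [intervalIntegral.integral_add, intervalIntegral.integral_sub,
        intervalIntegral.integral_const_mul, intervalIntegral.integral_const]
      · simp
      all_goals exact Continuous.intervalIntegrable (by fun_prop) _ _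
    rw [← e1, ← abs_int hx, ← intervalIntegral.integral_mul_const]
    refine intervalIntegral.integral_mono_on hab' ?_ ?_ fun y hy => h1 x hx y hy
    all_goals exact Continuous.intervalIntegrable (by fun_prop) _ _
  -- outer integral
  have h3 : ∫ x in a..b, ((b - a) * g x ^ 2 - 2 * g x * (∫ t in a..b, g t) +
      (∫ t in a..b, g t ^ 2)) ≤ ∫ x in a..b, ((x - a) ^ 2 + (b - x) ^ 2) / 2 * V := by
    refine intervalIntegral.integral_mono_on hab' ?_ ?_ h2
    all_goals exact Continuous.intervalIntegrable (by fun_prop) _ _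
  have h4 : ∫ x in a..b, ((b - a) * g x ^ 2 - 2 * g x * (∫ t in a..b, g t) +
      (∫ t in a..b, g t ^ 2)) = 2 * ((b - a) * (∫ t in a..b, g t ^ 2) - (∫ t in a..b, g t) ^ 2) := by
    rw [intervalIntegral.integral_add, intervalIntegral.integral_sub,
      intervalIntegral.integral_const_mul, intervalIntegral.integral_const]
    · have e2 : ∫ x in a..b, 2 * g x * (∫ t in a..b, g t) = 2 * (∫ t in a..b, g t) ^ 2 := by
        rw [intervalIntegral.integral_mul_const, intervalIntegral.integral_const_mul]; ring
      rw [e2]; simp; ring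
    all_goals exact Continuous.intervalIntegrable (by fun_prop) _ _
  have h5 : ∫ x in a..b, ((x - a) ^ 2 + (b - x) ^ 2) / 2 * V = (b - a) ^ 3 / 3 * V := by
    have e1 : ∀ x : ℝ, ((x - a) ^ 2 + (b - x) ^ 2) / 2 * V =
        (x ^ 2 - (a + b) * x + (a ^ 2 + b ^ 2) / 2) * V := fun x => by ring
    simp only [e1]
    rw [intervalIntegral.integral_mul_const, intervalIntegral.integral_add,
      intervalIntegral.integral_sub, intervalIntegral.integral_const_mul, integral_pow, integral_id,
      intervalIntegral.integral_const]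
    · simp
      left
      ring
    all_goals exact Continuous.intervalIntegrable (by fun_prop) _ _
  rw [h4, h5] at h3
  linarith

end Pool.Agent.H900R3.Dir
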